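import Mathlib

/-!
The degeneration in standard coordinates: the four lines `x = t i * z`, `y = t i * z - (t i)⁻¹ * w`
on the quadric `x ^ 2 - x * y = z * w`, moved by the one-parameter group `(T ^ 3, T, 1, 1)`.
-/

set_option autoImplicit false

open MvPolynomial

namespace Pool.Agent.H67s

/-- The inclusion of `R[z,w]` in `R[x,y,z,w]`. -/
noncomputable def emb (R : Type*) [CommRing R] : MvPolynomial (Fin 2) R →ₐ[R] MvPolynomial (Fin 4) R :=
  rename ![2, 3]

@[simp] lemma emb_X0 (R : Type*) [CommRing R] : emb R (X 0) = X 2 := by simp [emb]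
@[simp] lemma emb_X1 (R : Type*) [CommRing R] : emb R (X 1) = X 3 := by simp [emb]
@[simp] lemma emb_C (R : Type*) [CommRing R] (r : R) : emb R (C r) = C r := by simp [emb]

lemma decomp (R : Type*) [CommRing R] (F : MvPolynomial (Fin 4) R) :
    ∃ (a0 a1 a2 a3 b : MvPolynomial (Fin 2) R) (U1 U2 U3 : MvPolynomial (Fin 4) R),
      F = emb R a0 + emb R a1 * X 1 + emb R a2 * X 1 ^ 2 + emb R a3 * X 1 ^ 3 + emb R b * X 0 +
        X 0 ^ 2 * U1 + X 0 * X 1 * U2 + X 1 ^ 4 * U3 := by
  induction F using MvPolynomial.induction_on with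
  | C r => exact ⟨C r, 0, 0, 0, 0, 0, 0, 0, by simp⟩
  | add p q hp hq =>
    obtain ⟨a0, a1, a2, a3, b, U1, U2, U3, rfl⟩ := hp
    obtain ⟨a0', a1', a2', a3', b', U1', U2', U3', rfl⟩ := hq
    refine ⟨a0 + a0', a1 + a1', a2 + a2', a3 + a3', b + b', U1 + U1', U2 + U2', U3 + U3', ?_⟩
    simp only [map_add]; ring
  | mul_X p i hp =>
    obtain ⟨a0, a1, a2, a3, b, U1, U2, U3, rfl⟩ := hp
    fin_cases i
    · refine ⟨0, 0, 0, 0, a0, emb R b + X 0 * U1, emb R a1 + emb R a2 * X 1 + emb R a3 * X 1 ^ 2 +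
        X 0 * U2, X 0 * U3, ?_⟩
      simp only [map_zero, Fin.zero_eta, Fin.isValue]; ring
    · refine ⟨0, a0, a1, a2, 0, X 1 * U1, emb R b + X 1 * U2, emb R a3 + X 1 * U3, ?_⟩
      simp only [map_zero, Fin.mk_one, Fin.isValue]; ring
    · refine ⟨a0 * X 0, a1 * X 0, a2 * X 0, a3 * X 0, b * X 0, X 2 * U1, X 2 * U2, X 2 * U3, ?_⟩
      simp only [map_mul, emb_X0, Fin.reduceFinMk, Fin.isValue]; ring
    · refine ⟨a0 * X 1, a1 * X 1, a2 * X 1, a3 * X 1, b * X 1, X 3 * U1, X 3 * U2, X 3 * U3, ?_⟩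
      simp only [map_mul, emb_X1, Fin.reduceFinMk, Fin.isValue]; ring

variable {k : Type*} [Field k]

/-- `x` on the `i`-th line. -/
noncomputable def xi (t : Fin 4 → k) (i : Fin 4) : MvPolynomial (Fin 2) k := C (t i) * X 0

/-- `y` on the `i`-th line. -/
noncomputable def eta (t : Fin 4 → k) (i : Fin 4) : MvPolynomial (Fin 2) k :=
  C (t i) * X 0 - C (t i)⁻¹ * X 1

/-- The line `i` at the parameter value `a`. -/
noncomputable def phiA (t : Fin 4 → k) (a : k) (i : Fin 4) :
    MvPolynomial (Fin 4) k →ₐ[k] MvPolynomial (Fin 2) k :=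
  aeval ![C (a ^ 3) * xi t i, C a * eta t i, X 0, X 1]

/-- The family of the `i`-th lines. -/
noncomputable def phi (t : Fin 4 → k) (i : Fin 4) :
    MvPolynomial (Fin 4) (Polynomial k) →+* Polynomial (MvPolynomial (Fin 2) k) :=
  eval₂Hom (Polynomial.mapRingHom C)
    ![Polynomial.C (xi t i) * Polynomial.X ^ 3, Polynomial.C (eta t i) * Polynomial.X,
      Polynomial.C (X 0), Polynomial.C (X 1)]

/-- The restriction of `phi` to `k[T][z,w]`. -/
noncomputable def psi (k : Type*) [Field k] :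
    MvPolynomial (Fin 2) (Polynomial k) →+* Polynomial (MvPolynomial (Fin 2) k) :=
  eval₂Hom (Polynomial.mapRingHom C) ![Polynomial.C (X 0), Polynomial.C (X 1)]

/-- The ideal of the family. -/
noncomputable def fam (t : Fin 4 → k) : Ideal (MvPolynomial (Fin 4) (Polynomial k)) :=
  ⨅ i, RingHom.ker (phi t i)

/-- The evaluation of the parameter. -/
noncomputable def ev (σ : Type*) (a : k) : MvPolynomial σ (Polynomial k) →+* MvPolynomial σ k :=
  map (Polynomial.evalRingHom a)

lemma mem_fam {t : Fin 4 → k} {F : MvPolynomial (Fin 4) (Polynomial k)} :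
    F ∈ fam t ↔ ∀ i, phi t i F = 0 := by
  simp [fam, Ideal.mem_iInf, RingHom.mem_ker]

lemma ev_surjective (σ : Type*) (a : k) : Function.Surjective (ev σ a) :=
  map_surjective _ fun c => ⟨Polynomial.C c, by simp⟩

@[simp] lemma ev_X (σ : Type*) (a : k) (i : σ) : ev σ a (X i) = X i := by simp [ev]

@[simp] lemma phi_X0 (t : Fin 4 → k) (i : Fin 4) :
    phi t i (X 0) = Polynomial.C (xi t i) * Polynomial.X ^ 3 := by simp [phi]
@[simp] lemma phi_X1 (t : Fin 4 → k) (i : Fin 4) :
    phi t i (X 1) = Polynomial.C (eta t i) * Polynomial.X := by simp [phi]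
@[simp] lemma phi_X2 (t : Fin 4 → k) (i : Fin 4) :
    phi t i (X 2) = Polynomial.C (X 0) := by simp [phi]
@[simp] lemma phi_X3 (t : Fin 4 → k) (i : Fin 4) :
    phi t i (X 3) = Polynomial.C (X 1) := by simp [phi]
@[simp] lemma phi_C (t : Fin 4 → k) (i : Fin 4) (p : Polynomial k) :
    phi t i (C p) = p.map C := by simp [phi]

lemma phi_emb (t : Fin 4 → k) (i : Fin 4) (a : MvPolynomial (Fin 2) (Polynomial k)) :
    phi t i (emb _ a) = psi k a := by
  have : (phi t i).comp (emb (Polynomial k)).toRingHom = psi k := by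
    apply MvPolynomial.ringHom_ext
    · intro p; simp [psi]
    · intro j
      fin_cases j <;> simp [psi]
  exact congrArg (fun f => f a) this

/-- The evaluation of `psi` at `0`. -/
lemma psi_coeff_zero (a : MvPolynomial (Fin 2) (Polynomial k)) :
    (psi k a).coeff 0 = ev (Fin 2) 0 a := by
  have : (Polynomial.evalRingHom (0 : MvPolynomial (Fin 2) k)).comp (psi k) = ev (Fin 2) (0 : k) := by
    apply MvPolynomial.ringHom_ext
    · intro p
      simp only [psi, RingHom.coe_comp, Function.comp_apply, eval₂Hom_C, ev, map_C,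
        Polynomial.coe_mapRingHom, Polynomial.coe_evalRingHom]
      rw [← Polynomial.coeff_zero_eq_eval_zero, Polynomial.coeff_map, Polynomial.coeff_zero_eq_eval_zero]
    · intro j
      fin_cases j <;> simp [psi]
  rw [Polynomial.coeff_zero_eq_eval_zero]
  exact congrArg (fun f => f a) this

lemma ev_emb (a : k) (p : MvPolynomial (Fin 2) (Polynomial k)) :
    ev (Fin 4) a (emb _ p) = emb _ (ev (Fin 2) a p) := by
  simp [ev, emb, map_rename]

end Pool.Agent.H67s
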