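import Mathlib
import Pool.Agent.H67s.Std

set_option autoImplicit false

open MvPolynomial

namespace Pool.Agent.H67s

lemma coeff_expand {A : Type*} [CommRing A] (P0 P1 P2 P3 R : Polynomial A)
    (h : P0 + P1 * Polynomial.X + P2 * Polynomial.X ^ 2 + P3 * Polynomial.X ^ 3 +
      R * Polynomial.X ^ 4 = 0) :
    P0.coeff 0 = 0 ∧ P0.coeff 1 + P1.coeff 0 = 0 ∧ P0.coeff 2 + P1.coeff 1 + P2.coeff 0 = 0 ∧
      P0.coeff 3 + P1.coeff 2 + P2.coeff 1 + P3.coeff 0 = 0 := by
  refine ⟨?_, ?_, ?_, ?_⟩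
  · have := congrArg (fun p => Polynomial.coeff p 0) h
    simpa [Polynomial.coeff_mul_X_pow'] using this
  · have := congrArg (fun p => Polynomial.coeff p 1) h
    simpa [Polynomial.coeff_mul_X_pow', Polynomial.coeff_mul_X] using this
  · have := congrArg (fun p => Polynomial.coeff p 2) h
    simpa [Polynomial.coeff_mul_X_pow', Polynomial.coeff_mul_X] using this
  · have := congrArg (fun p => Polynomial.coeff p 3) h
    simpa [Polynomial.coeff_mul_X_pow', Polynomial.coeff_mul_X] using this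

variable {k : Type*} [Field k]

/-- The matrix with columns `1, y, y², y³`. -/
noncomputable def V (t : Fin 4 → k) : Matrix (Fin 4) (Fin 4) (MvPolynomial (Fin 2) k) :=
  Matrix.vandermonde (eta t)

/-- The matrix with columns `1, y, y², x`. -/
noncomputable def W (t : Fin 4 → k) : Matrix (Fin 4) (Fin 4) (MvPolynomial (Fin 2) k) :=
  (V t).updateCol 3 (xi t)

noncomputable def ff (t : Fin 4 → k) : MvPolynomial (Fin 2) k := (V t).det
noncomputable def hh (t : Fin 4 → k) : MvPolynomial (Fin 2) k := (W t).det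

lemma V_mulVec (t : Fin 4 → k) (c : Fin 4 → MvPolynomial (Fin 2) k) (i : Fin 4) :
    (V t).mulVec c i = c 0 + c 1 * eta t i + c 2 * eta t i ^ 2 + c 3 * eta t i ^ 3 := by
  simp [Matrix.mulVec, dotProduct, Fin.sum_univ_four, V, Matrix.vandermonde]
  ring

lemma W_mulVec (t : Fin 4 → k) (c : Fin 4 → MvPolynomial (Fin 2) k) (i : Fin 4) :
    (W t).mulVec c i = c 0 + c 1 * eta t i + c 2 * eta t i ^ 2 + c 3 * xi t i := by
  simp [Matrix.mulVec, dotProduct, Fin.sum_univ_four, W, V, Matrix.vandermonde, Matrix.updateCol_apply]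
  ring

lemma cramerV (t : Fin 4 → k) (u : Fin 4 → MvPolynomial (Fin 2) k) :
    ∃ c : Fin 4 → MvPolynomial (Fin 2) k, ∀ i,
      c 0 + c 1 * eta t i + c 2 * eta t i ^ 2 + c 3 * eta t i ^ 3 = ff t * u i := by
  refine ⟨(V t).cramer u, fun i => ?_⟩
  rw [← V_mulVec, Matrix.mulVec_cramer]
  simp [ff]

lemma cramerW (t : Fin 4 → k) (u : Fin 4 → MvPolynomial (Fin 2) k) :
    ∃ c : Fin 4 → MvPolynomial (Fin 2) k, (∀ i,
      c 0 + c 1 * eta t i + c 2 * eta t i ^ 2 + c 3 * xi t i = hh t * u i) := by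
  refine ⟨(W t).cramer u, fun i => ?_⟩
  rw [← W_mulVec, Matrix.mulVec_cramer]
  simp [hh]

lemma W_update (t : Fin 4 → k) : (W t).updateCol 3 (fun i => eta t i ^ 3) = V t := by
  ext i j
  fin_cases j <;> simp [W, V, Matrix.vandermonde, Matrix.updateCol_apply]

lemma cramerW3 (t : Fin 4 → k) :
    ∃ c0 c1 c2 : MvPolynomial (Fin 2) k, (∀ i,
      c0 + c1 * eta t i + c2 * eta t i ^ 2 + ff t * xi t i = hh t * eta t i ^ 3) := by
  set c := (W t).cramer (fun i => eta t i ^ 3) with hc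
  have h3 : c 3 = ff t := by
    rw [hc, Matrix.cramer_apply, W_update, ff]
  refine ⟨c 0, c 1, c 2, fun i => ?_⟩
  rw [← h3, ← W_mulVec, Matrix.mulVec_cramer]
  simp [hh]

/-- The linear algebra step. -/
lemma det_relation (t : Fin 4 → k) {c0 c1 c2 a b : MvPolynomial (Fin 2) k}
    (h : ∀ i, c0 + c1 * eta t i + c2 * eta t i ^ 2 + (eta t i ^ 3 * a + xi t i * b) = 0) :
    a * ff t + b * hh t = 0 := by
  have h1 : (W t).mulVec ![c0, c1, c2, b] = fun i => - a * eta t i ^ 3 := by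
    ext1 i
    rw [W_mulVec]
    have := h i
    simp only [Matrix.cons_val_zero, Matrix.cons_val_one, Matrix.cons_val]
    linear_combination this
  have h2 : (W t).cramer ((W t).mulVec ![c0, c1, c2, b]) 3 = (W t).det * b := by
    rw [Matrix.cramer_eq_adjugate_mulVec, Matrix.mulVec_mulVec, Matrix.adjugate_mul,
      Matrix.smul_mulVec, Matrix.one_mulVec]
    simp
  have h3 : (W t).cramer ((W t).mulVec ![c0, c1, c2, b]) 3 = - a * ff t := by
    rw [h1]
    have : (fun i => - a * eta t i ^ 3) = (-a) • (fun i => eta t i ^ 3) := by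
      ext1 i; simp
    rw [this, map_smul, Pi.smul_apply, Matrix.cramer_apply, W_update, ff, smul_eq_mul]
  rw [h2] at h3
  rw [hh]
  linear_combination h3

lemma eta_inj {t : Fin 4 → k} (ht0 : ∀ i, t i ≠ 0) (ht : Function.Injective t) :
    Function.Injective (eta t) := by
  intro i j h
  apply ht
  have := congrArg (eval ![1, 0]) h
  simpa [eta] using this

lemma fam_coeffs {t : Fin 4 → k} (ht0 : ∀ i, t i ≠ 0) (ht : Function.Injective t)
    {a0 a1 a2 a3 b : MvPolynomial (Fin 2) (Polynomial k)}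
    {U1 U2 U3 : MvPolynomial (Fin 4) (Polynomial k)}
    (h : emb _ a0 + emb _ a1 * X 1 + emb _ a2 * X 1 ^ 2 + emb _ a3 * X 1 ^ 3 + emb _ b * X 0 +
        X 0 ^ 2 * U1 + X 0 * X 1 * U2 + X 1 ^ 4 * U3 ∈ fam t) :
    ev (Fin 2) 0 a0 = 0 ∧ ev (Fin 2) 0 a1 = 0 ∧ ev (Fin 2) 0 a2 = 0 ∧
      ev (Fin 2) 0 a3 * ff t + ev (Fin 2) 0 b * hh t = 0 := by
  rw [mem_fam] at h
  have key : ∀ i, (psi k a0).coeff 0 = 0 ∧
      (psi k a0).coeff 1 + eta t i * (psi k a1).coeff 0 = 0 ∧
      (psi k a0).coeff 2 + eta t i * (psi k a1).coeff 1 + eta t i ^ 2 * (psi k a2).coeff 0 = 0 ∧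
      (psi k a0).coeff 3 + eta t i * (psi k a1).coeff 2 + eta t i ^ 2 * (psi k a2).coeff 1 +
        (eta t i ^ 3 * (psi k a3).coeff 0 + xi t i * (psi k b).coeff 0) = 0 := by
    intro i
    have h1 := h i
    simp only [map_add, map_mul, map_pow, phi_emb, phi_X0, phi_X1] at h1
    have h2 := coeff_expand (psi k a0) (Polynomial.C (eta t i) * psi k a1)
      (Polynomial.C (eta t i ^ 2) * psi k a2)
      (Polynomial.C (eta t i ^ 3) * psi k a3 + Polynomial.C (xi t i) * psi k b)
      (Polynomial.C (xi t i) ^ 2 * Polynomial.X ^ 2 * phi t i U1 +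
        Polynomial.C (xi t i) * Polynomial.C (eta t i) * phi t i U2 +
        Polynomial.C (eta t i) ^ 4 * phi t i U3) (by
          rw [← h1]
          simp only [map_pow]
          ring)
    simpa only [Polynomial.coeff_C_mul, Polynomial.coeff_add] using h2
  have hne : ∀ i j, i ≠ j → eta t i - eta t j ≠ 0 := fun i j hij h0 =>
    hij (eta_inj ht0 ht (sub_eq_zero.1 h0))
  simp only [psi_coeff_zero] at key
  have h1 : ev (Fin 2) 0 a1 = 0 := by
    have e0 := (key 0).2.1
    have e1 := (key 1).2.1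
    have : (eta t 0 - eta t 1) * ev (Fin 2) 0 a1 = 0 := by linear_combination e0 - e1
    exact (mul_eq_zero.1 this).resolve_left (hne 0 1 (by decide))
  have h2 : ev (Fin 2) 0 a2 = 0 := by
    have e0 := (key 0).2.2.1
    have e1 := (key 1).2.2.1
    have e2 := (key 2).2.2.1
    have : (eta t 0 - eta t 1) * ((eta t 0 - eta t 2) * ((eta t 1 - eta t 2) *
        ev (Fin 2) 0 a2)) = 0 := by
      linear_combination (eta t 1 - eta t 2) * e0 - (eta t 0 - eta t 2) * e1 +
        (eta t 0 - eta t 1) * e2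
    exact (mul_eq_zero.1 ((mul_eq_zero.1 ((mul_eq_zero.1 this).resolve_left
      (hne 0 1 (by decide)))).resolve_left (hne 0 2 (by decide)))).resolve_left
      (hne 1 2 (by decide))
  refine ⟨(key 0).1, h1, h2, ?_⟩
  apply det_relation t (c0 := (psi k a0).coeff 3) (c1 := (psi k a1).coeff 2)
    (c2 := (psi k a2).coeff 1)
  intro i
  have := (key i).2.2.2
  linear_combination this

end Pool.Agent.H67s
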