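import Mathlib
import Pool.Agent.H67s.Std2

set_option autoImplicit false

open MvPolynomial

namespace Pool.Agent.H67s

variable {k : Type*} [Field k]

/-- The fibre of an ideal of `k[T][x,y,z,w]` over `T = a`. -/
noncomputable def fibre (a : k) (I : Ideal (MvPolynomial (Fin 4) (Polynomial k))) :
    Ideal (MvPolynomial (Fin 4) k) :=
  I.map (map (Polynomial.evalRingHom a))

lemma mem_fibre {a : k} {I : Ideal (MvPolynomial (Fin 4) (Polynomial k))}
    {F : MvPolynomial (Fin 4) k} : F ∈ fibre a I ↔ ∃ G ∈ I, ev (Fin 4) a G = F :=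
  Ideal.mem_map_iff_of_surjective _ (ev_surjective (Fin 4) a)

/-- The constant family. -/
noncomputable def lift (k : Type*) [Field k] :
    MvPolynomial (Fin 4) k →+* MvPolynomial (Fin 4) (Polynomial k) := map Polynomial.C

@[simp] lemma ev_lift (a : k) (F : MvPolynomial (Fin 4) k) : ev (Fin 4) a (lift k F) = F := by
  rw [ev, lift, map_map]
  have : (Polynomial.evalRingHom a).comp Polynomial.C = RingHom.id k := by ext; simp
  rw [this, map_id]

@[simp] lemma phi_lift_emb (t : Fin 4 → k) (i : Fin 4) (c : MvPolynomial (Fin 2) k) :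
    phi t i (lift k (emb k c)) = Polynomial.C c := by
  have : ((phi t i).comp (lift k)).comp (emb k).toRingHom = Polynomial.C := by
    apply MvPolynomial.ringHom_ext
    · intro r; simp [lift]
    · intro j
      fin_cases j <;> simp [lift]
  exact congrArg (fun f => f c) this

@[simp] lemma ev_CX (a : k) : ev (Fin 4) a (C Polynomial.X) = C a := by simp [ev]
@[simp] lemma phi_CX (t : Fin 4 → k) (i : Fin 4) : phi t i (C Polynomial.X) = Polynomial.X := by
  simp

lemma quadric_mem_fam {t : Fin 4 → k} (ht0 : ∀ i, t i ≠ 0) :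
    (X 0 ^ 2 - C Polynomial.X ^ 2 * X 0 * X 1 - C Polynomial.X ^ 6 * X 2 * X 3 :
      MvPolynomial (Fin 4) (Polynomial k)) ∈ fam t := by
  rw [mem_fam]
  intro i
  simp only [map_sub, map_mul, map_pow, phi_CX, phi_X0, phi_X1, phi_X2, phi_X3]
  have : xi t i ^ 2 - xi t i * eta t i - X 0 * X 1 = 0 := by
    have h1 : (C (t i) * C (t i)⁻¹ : MvPolynomial (Fin 2) k) = 1 := by
      rw [← C_mul, mul_inv_cancel₀ (ht0 i), C_1]
    simp only [xi, eta]
    linear_combination (X 0 * X 1) * h1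
  have h2 := congrArg (fun p => Polynomial.C p * Polynomial.X ^ 6) this
  simp only [map_sub, map_mul, map_pow, map_zero, zero_mul] at h2
  linear_combination h2

lemma x2_mem {t : Fin 4 → k} (ht0 : ∀ i, t i ≠ 0) : (X 0 ^ 2 : MvPolynomial (Fin 4) k) ∈
    fibre 0 (fam t) := by
  rw [mem_fibre]
  refine ⟨_, quadric_mem_fam ht0, ?_⟩
  simp

lemma ff_xy_mem (t : Fin 4 → k) : (emb k (ff t) * (X 0 * X 1) : MvPolynomial (Fin 4) k) ∈
    fibre 0 (fam t) := by
  obtain ⟨c, hc⟩ := cramerV t (fun i => xi t i * eta t i)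
  rw [mem_fibre]
  refine ⟨lift k (emb k (ff t)) * (X 0 * X 1) - C Polynomial.X *
    (C Polynomial.X ^ 3 * lift k (emb k (c 0)) + C Polynomial.X ^ 2 * lift k (emb k (c 1)) * X 1 +
      C Polynomial.X * lift k (emb k (c 2)) * X 1 ^ 2 + lift k (emb k (c 3)) * X 1 ^ 3), ?_, ?_⟩
  · rw [mem_fam]
    intro i
    simp only [map_sub, map_add, map_mul, map_pow, phi_CX, phi_X0, phi_X1, phi_lift_emb]
    have h2 := congrArg (fun p => Polynomial.C p * Polynomial.X ^ 4) (hc i)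
    simp only [map_add, map_mul, map_pow] at h2
    linear_combination - h2
  · simp

lemma hh_xy_mem (t : Fin 4 → k) : (emb k (hh t) * (X 0 * X 1) : MvPolynomial (Fin 4) k) ∈
    fibre 0 (fam t) := by
  obtain ⟨c, hc⟩ := cramerW t (fun i => xi t i * eta t i)
  rw [mem_fibre]
  refine ⟨lift k (emb k (hh t)) * (X 0 * X 1) - C Polynomial.X *
    (C Polynomial.X ^ 3 * lift k (emb k (c 0)) + C Polynomial.X ^ 2 * lift k (emb k (c 1)) * X 1 +
      C Polynomial.X * lift k (emb k (c 2)) * X 1 ^ 2 + lift k (emb k (c 3)) * X 0), ?_, ?_⟩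
  · rw [mem_fam]
    intro i
    simp only [map_sub, map_add, map_mul, map_pow, phi_CX, phi_X0, phi_X1, phi_lift_emb]
    have h2 := congrArg (fun p => Polynomial.C p * Polynomial.X ^ 4) (hc i)
    simp only [map_add, map_mul, map_pow] at h2
    linear_combination - h2
  · simp

lemma rel_mem (t : Fin 4 → k) : (emb k (hh t) * X 1 ^ 3 - emb k (ff t) * X 0 :
    MvPolynomial (Fin 4) k) ∈ fibre 0 (fam t) := by
  obtain ⟨c0, c1, c2, hc⟩ := cramerW3 t
  rw [mem_fibre]
  refine ⟨lift k (emb k (hh t)) * X 1 ^ 3 - lift k (emb k (ff t)) * X 0 - C Polynomial.X *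
    (C Polynomial.X ^ 2 * lift k (emb k c0) + C Polynomial.X * lift k (emb k c1) * X 1 +
      lift k (emb k c2) * X 1 ^ 2), ?_, ?_⟩
  · rw [mem_fam]
    intro i
    simp only [map_sub, map_add, map_mul, map_pow, phi_CX, phi_X0, phi_X1, phi_lift_emb]
    have h2 := congrArg (fun p => Polynomial.C p * Polynomial.X ^ 3) (hc i)
    simp only [map_add, map_mul, map_pow] at h2
    linear_combination - h2
  · simp

lemma y4_mem (t : Fin 4 → k) : (X 1 ^ 4 : MvPolynomial (Fin 4) k) ∈ fibre 0 (fam t) := by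
  rw [mem_fibre]
  refine ⟨∏ i, (X 1 - C Polynomial.X * lift k (emb k (eta t i))), ?_, ?_⟩
  · rw [mem_fam]
    intro i
    rw [map_prod]
    apply Finset.prod_eq_zero (Finset.mem_univ i)
    simp only [map_sub, map_mul, phi_CX, phi_X1, phi_lift_emb]
    ring
  · rw [map_prod]
    simp

/-- The auxiliary ring homomorphism whose kernel modulo `Y ^ 4` is the saturated ideal. -/
noncomputable def rho (t : Fin 4 → k) :
    MvPolynomial (Fin 4) k →+* Polynomial (MvPolynomial (Fin 2) k) :=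
  eval₂Hom (Polynomial.C.comp C)
    ![Polynomial.C (hh t * ff t ^ 2) * Polynomial.X ^ 3, Polynomial.C (ff t) * Polynomial.X,
      Polynomial.C (X 0), Polynomial.C (X 1)]

@[simp] lemma rho_X0 (t : Fin 4 → k) :
    rho t (X 0) = Polynomial.C (hh t * ff t ^ 2) * Polynomial.X ^ 3 := by simp [rho]
@[simp] lemma rho_X1 (t : Fin 4 → k) :
    rho t (X 1) = Polynomial.C (ff t) * Polynomial.X := by simp [rho]

@[simp] lemma rho_emb (t : Fin 4 → k) (c : MvPolynomial (Fin 2) k) :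
    rho t (emb k c) = Polynomial.C c := by
  have : (rho t).comp (emb k).toRingHom = Polynomial.C := by
    apply MvPolynomial.ringHom_ext
    · intro r; simp [rho]
    · intro j
      fin_cases j <;> simp [rho]
  exact congrArg (fun f => f c) this

/-- The saturated ideal. -/
def InJ (t : Fin 4 → k) (F : MvPolynomial (Fin 4) k) : Prop :=
  ∀ n < 4, (rho t F).coeff n = 0

lemma coeff_poly {A : Type*} [CommRing A] (c0 c1 c2 c3 : A) (R : Polynomial A) :
    let P := Polynomial.C c0 + Polynomial.C c1 * Polynomial.X + Polynomial.C c2 * Polynomial.X ^ 2 +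
      Polynomial.C c3 * Polynomial.X ^ 3 + R * Polynomial.X ^ 4
    P.coeff 0 = c0 ∧ P.coeff 1 = c1 ∧ P.coeff 2 = c2 ∧ P.coeff 3 = c3 := by
  refine ⟨?_, ?_, ?_, ?_⟩ <;>
    simp [Polynomial.coeff_mul_X_pow', Polynomial.coeff_X, Polynomial.coeff_C]

lemma inJ_iff {t : Fin 4 → k} (hf : ff t ≠ 0) {a0 a1 a2 a3 b : MvPolynomial (Fin 2) k}
    {U1 U2 U3 : MvPolynomial (Fin 4) k} :
    InJ t (emb _ a0 + emb _ a1 * X 1 + emb _ a2 * X 1 ^ 2 + emb _ a3 * X 1 ^ 3 + emb _ b * X 0 +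
        X 0 ^ 2 * U1 + X 0 * X 1 * U2 + X 1 ^ 4 * U3) ↔
      a0 = 0 ∧ a1 = 0 ∧ a2 = 0 ∧ a3 * ff t + b * hh t = 0 := by
  have h1 : rho t (emb _ a0 + emb _ a1 * X 1 + emb _ a2 * X 1 ^ 2 + emb _ a3 * X 1 ^ 3 +
      emb _ b * X 0 + X 0 ^ 2 * U1 + X 0 * X 1 * U2 + X 1 ^ 4 * U3) =
      Polynomial.C a0 + Polynomial.C (a1 * ff t) * Polynomial.X +
        Polynomial.C (a2 * ff t ^ 2) * Polynomial.X ^ 2 +
        Polynomial.C ((a3 * ff t + b * hh t) * ff t ^ 2) * Polynomial.X ^ 3 +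
        (Polynomial.C (hh t * ff t ^ 2) ^ 2 * Polynomial.X ^ 2 * rho t U1 +
          Polynomial.C (hh t * ff t ^ 2) * Polynomial.C (ff t) * rho t U2 +
          Polynomial.C (ff t) ^ 4 * rho t U3) * Polynomial.X ^ 4 := by
    simp only [map_add, map_mul, map_pow, rho_X0, rho_X1, rho_emb]
    ring
  constructor
  · intro h
    have e0 := h 0 (by norm_num)
    have e1 := h 1 (by norm_num)
    have e2 := h 2 (by norm_num)
    have e3 := h 3 (by norm_num)
    rw [h1] at e0 e1 e2 e3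
    obtain ⟨f0, f1, f2, f3⟩ := coeff_poly a0 (a1 * ff t) (a2 * ff t ^ 2)
      ((a3 * ff t + b * hh t) * ff t ^ 2)
      (Polynomial.C (hh t * ff t ^ 2) ^ 2 * Polynomial.X ^ 2 * rho t U1 +
          Polynomial.C (hh t * ff t ^ 2) * Polynomial.C (ff t) * rho t U2 +
          Polynomial.C (ff t) ^ 4 * rho t U3)
    rw [f0] at e0
    rw [f1] at e1
    rw [f2] at e2
    rw [f3] at e3
    exact ⟨e0, (mul_eq_zero.1 e1).resolve_right hf,
      (mul_eq_zero.1 e2).resolve_right (pow_ne_zero _ hf),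
      (mul_eq_zero.1 e3).resolve_right (pow_ne_zero _ hf)⟩
  · rintro ⟨rfl, rfl, rfl, h3⟩ n hn
    rw [h1, h3]
    simp only [map_zero, zero_mul, zero_add, Polynomial.coeff_mul_X_pow']
    rw [if_neg (by omega)]

lemma fibre_inJ {t : Fin 4 → k} (ht0 : ∀ i, t i ≠ 0) (ht : Function.Injective t) (hf : ff t ≠ 0)
    {F : MvPolynomial (Fin 4) k} (hF : F ∈ fibre 0 (fam t)) : InJ t F := by
  rw [mem_fibre] at hF
  obtain ⟨G, hG, rfl⟩ := hF
  obtain ⟨a0, a1, a2, a3, b, U1, U2, U3, rfl⟩ := decomp _ G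
  simp only [map_add, map_mul, map_pow, ev_emb, ev_X]
  rw [inJ_iff hf]
  exact fam_coeffs ht0 ht hG

lemma inJ_mul {t : Fin 4 → k} {g : MvPolynomial (Fin 2) k} (hg : g ≠ 0)
    {F : MvPolynomial (Fin 4) k} (h : InJ t (emb k g * F)) : InJ t F := by
  intro n hn
  have := h n hn
  rw [map_mul, rho_emb, Polynomial.coeff_C_mul] at this
  exact (mul_eq_zero.1 this).resolve_left hg

lemma ff_mul_mem {t : Fin 4 → k} (ht0 : ∀ i, t i ≠ 0) (hf : ff t ≠ 0)
    {F : MvPolynomial (Fin 4) k} (h : InJ t F) : emb k (ff t) * F ∈ fibre 0 (fam t) := by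
  obtain ⟨a0, a1, a2, a3, b, U1, U2, U3, rfl⟩ := decomp _ F
  obtain ⟨rfl, rfl, rfl, h3⟩ := (inJ_iff hf).1 h
  have h3' := congrArg (emb k) h3
  simp only [map_add, map_mul, map_zero] at h3'
  have : emb k (ff t) * (emb k 0 + emb k 0 * X 1 + emb k 0 * X 1 ^ 2 + emb k a3 * X 1 ^ 3 +
      emb k b * X 0 + X 0 ^ 2 * U1 + X 0 * X 1 * U2 + X 1 ^ 4 * U3) =
      - emb k b * (emb k (hh t) * X 1 ^ 3 - emb k (ff t) * X 0) +
      (emb k (ff t) * U1) * X 0 ^ 2 + U2 * (emb k (ff t) * (X 0 * X 1)) +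
        (emb k (ff t) * U3) * X 1 ^ 4 := by
    simp only [map_zero]
    linear_combination X 1 ^ 3 * h3'
  rw [this]
  exact add_mem (add_mem (add_mem (Ideal.mul_mem_left _ _ (rel_mem t))
    (Ideal.mul_mem_left _ _ (x2_mem ht0))) (Ideal.mul_mem_left _ _ (ff_xy_mem t)))
    (Ideal.mul_mem_left _ _ (y4_mem t))

lemma hh_mul_mem {t : Fin 4 → k} (ht0 : ∀ i, t i ≠ 0) (hf : ff t ≠ 0)
    {F : MvPolynomial (Fin 4) k} (h : InJ t F) : emb k (hh t) * F ∈ fibre 0 (fam t) := by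
  obtain ⟨a0, a1, a2, a3, b, U1, U2, U3, rfl⟩ := decomp _ F
  obtain ⟨rfl, rfl, rfl, h3⟩ := (inJ_iff hf).1 h
  have h3' := congrArg (emb k) h3
  simp only [map_add, map_mul, map_zero] at h3'
  have : emb k (hh t) * (emb k 0 + emb k 0 * X 1 + emb k 0 * X 1 ^ 2 + emb k a3 * X 1 ^ 3 +
      emb k b * X 0 + X 0 ^ 2 * U1 + X 0 * X 1 * U2 + X 1 ^ 4 * U3) =
      emb k a3 * (emb k (hh t) * X 1 ^ 3 - emb k (ff t) * X 0) +
      (emb k (hh t) * U1) * X 0 ^ 2 + U2 * (emb k (hh t) * (X 0 * X 1)) +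
        (emb k (hh t) * U3) * X 1 ^ 4 := by
    simp only [map_zero]
    linear_combination X 0 * h3'
  rw [this]
  exact add_mem (add_mem (add_mem (Ideal.mul_mem_left _ _ (rel_mem t))
    (Ideal.mul_mem_left _ _ (x2_mem ht0))) (Ideal.mul_mem_left _ _ (hh_xy_mem t)))
    (Ideal.mul_mem_left _ _ (y4_mem t))

end Pool.Agent.H67s
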