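import Mathlib
import Pool.Agent.H67s.Std3

set_option autoImplicit false

open MvPolynomial

namespace Pool.Agent.H67s

lemma det_formula {K : Type*} [Field K] (a b c d z w : K) (ha : a ≠ 0) (hb : b ≠ 0) (hc : c ≠ 0)
    (hd : d ≠ 0) :
    Matrix.det !![1, a * z - a⁻¹ * w, (a * z - a⁻¹ * w) ^ 2, a * z;
      1, b * z - b⁻¹ * w, (b * z - b⁻¹ * w) ^ 2, b * z;
      1, c * z - c⁻¹ * w, (c * z - c⁻¹ * w) ^ 2, c * z;
      1, d * z - d⁻¹ * w, (d * z - d⁻¹ * w) ^ 2, d * z] * (a * b * c * d) ^ 2 =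
      (b - a) * (c - a) * (d - a) * (c - b) * (d - b) * (d - c) * z * w *
        (w ^ 2 - (a * b * c * d) * z ^ 2) := by
  simp [Matrix.det_succ_row_zero, Fin.sum_univ_succ, Fin.succAbove]
  field_simp
  ring

variable {k : Type*} [Field k]

/-- The constant in the formula for `hh`. -/
def vd (t : Fin 4 → k) : k :=
  (t 1 - t 0) * (t 2 - t 0) * (t 3 - t 0) * (t 2 - t 1) * (t 3 - t 1) * (t 3 - t 2)

lemma vd_ne {t : Fin 4 → k} (ht : Function.Injective t) : vd t ≠ 0 := by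
  have h : ∀ i j, i ≠ j → t i - t j ≠ 0 := fun i j hij h0 => hij (ht (sub_eq_zero.1 h0))
  simp only [vd, mul_ne_zero_iff]
  exact ⟨⟨⟨⟨⟨h 1 0 (by decide), h 2 0 (by decide)⟩, h 3 0 (by decide)⟩, h 2 1 (by decide)⟩,
    h 3 1 (by decide)⟩, h 3 2 (by decide)⟩

lemma hh_formula {t : Fin 4 → k} (ht0 : ∀ i, t i ≠ 0) :
    hh t * C (t 0 * t 1 * t 2 * t 3) ^ 2 =
      C (vd t) * X 0 * X 1 * (X 1 ^ 2 - C (t 0 * t 1 * t 2 * t 3) * X 0 ^ 2) := by
  let K := FractionRing (MvPolynomial (Fin 2) k)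
  let ι : MvPolynomial (Fin 2) k →+* K := algebraMap _ _
  have hι : Function.Injective ι := IsFractionRing.injective _ _
  apply hι
  have hC : ∀ c : k, c ≠ 0 → ι (C c) ≠ 0 := fun c hc h0 => hc (by
    rw [← map_zero ι] at h0
    have := hι h0
    rwa [C_eq_zero] at this)
  have hinv : ∀ c : k, ι (C c⁻¹) = (ι (C c))⁻¹ := fun c => map_inv₀ (ι.comp C) c
  have hd : ι (hh t) = Matrix.det !![1, ι (C (t 0)) * ι (X 0) - (ι (C (t 0)))⁻¹ * ι (X 1),
      (ι (C (t 0)) * ι (X 0) - (ι (C (t 0)))⁻¹ * ι (X 1)) ^ 2, ι (C (t 0)) * ι (X 0);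
      1, ι (C (t 1)) * ι (X 0) - (ι (C (t 1)))⁻¹ * ι (X 1),
      (ι (C (t 1)) * ι (X 0) - (ι (C (t 1)))⁻¹ * ι (X 1)) ^ 2, ι (C (t 1)) * ι (X 0);
      1, ι (C (t 2)) * ι (X 0) - (ι (C (t 2)))⁻¹ * ι (X 1),
      (ι (C (t 2)) * ι (X 0) - (ι (C (t 2)))⁻¹ * ι (X 1)) ^ 2, ι (C (t 2)) * ι (X 0);
      1, ι (C (t 3)) * ι (X 0) - (ι (C (t 3)))⁻¹ * ι (X 1),
      (ι (C (t 3)) * ι (X 0) - (ι (C (t 3)))⁻¹ * ι (X 1)) ^ 2, ι (C (t 3)) * ι (X 0)] := by
    rw [hh, RingHom.map_det]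
    congr 1
    ext i j
    fin_cases i <;> fin_cases j <;>
      simp [W, V, Matrix.vandermonde, xi, eta, hinv]
  have := det_formula (ι (C (t 0))) (ι (C (t 1))) (ι (C (t 2))) (ι (C (t 3))) (ι (X 0)) (ι (X 1))
    (hC _ (ht0 0)) (hC _ (ht0 1)) (hC _ (ht0 2)) (hC _ (ht0 3))
  rw [← hd] at this
  simp only [map_mul, map_pow, map_sub, vd]
  exact this

lemma ff_formula (t : Fin 4 → k) : ff t = ∏ i, ∏ j ∈ Finset.Ioi i, (eta t j - eta t i) :=
  Matrix.det_vandermonde _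

lemma ff_ne {t : Fin 4 → k} (ht : Function.Injective t) : ff t ≠ 0 := by
  have : Function.Injective (eta t) := by
    intro i j h
    apply ht
    have := congrArg (eval ![1, 0]) h
    simpa [eta] using this
  exact (Matrix.det_vandermonde_ne_zero_iff).2 this

/-- A prime ideal which contains `ff` and `hh` contains `z` and `w`. -/
lemma zw_mem {t : Fin 4 → k} (ht0 : ∀ i, t i ≠ 0) (ht : Function.Injective t)
    (hg : ∀ i j, i ≠ j → (t i * t j) ^ 2 ≠ t 0 * t 1 * t 2 * t 3)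
    {P : Ideal (MvPolynomial (Fin 4) k)} (hP : P.IsPrime)
    (h1 : emb k (ff t) ∈ P) (h2 : emb k (hh t) ∈ P) : X 2 ∈ P ∧ X 3 ∈ P := by
  have unit : ∀ (c : k) (F : MvPolynomial (Fin 4) k), c ≠ 0 → C c * F ∈ P → F ∈ P := by
    intro c F hc h
    have : F = C c⁻¹ * (C c * F) := by
      rw [← mul_assoc, ← C_mul, inv_mul_cancel₀ hc, C_1, one_mul]
    rw [this]
    exact Ideal.mul_mem_left _ _ h
  -- a factor of `ff`
  obtain ⟨i, j, hij, h3⟩ : ∃ i j : Fin 4, i ≠ j ∧ emb k (eta t j - eta t i) ∈ P := by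
    rw [ff_formula, map_prod] at h1
    obtain ⟨i, -, hi⟩ := (hP.prod_mem_iff).1 h1
    rw [map_prod] at hi
    obtain ⟨j, hj, hj'⟩ := (hP.prod_mem_iff).1 hi
    exact ⟨i, j, (Finset.mem_Ioi.1 hj).ne, hj'⟩
  have h4 : C (t i * t j) * X 2 + X 3 ∈ P := by
    apply unit (t j - t i) _ (sub_ne_zero.2 fun h => hij (ht h).symm)
    apply unit (t i * t j)⁻¹ _ (inv_ne_zero (mul_ne_zero (ht0 i) (ht0 j)))
    have e1 : emb k (eta t j - eta t i) =
        C (t i * t j)⁻¹ * (C (t j - t i) * (C (t i * t j) * X 2 + X 3)) := by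
      have e2 : (C (t i) : MvPolynomial (Fin 4) k) * C (t i)⁻¹ = 1 := by
        rw [← C_mul, mul_inv_cancel₀ (ht0 i), C_1]
      have e3 : (C (t j) : MvPolynomial (Fin 4) k) * C (t j)⁻¹ = 1 := by
        rw [← C_mul, mul_inv_cancel₀ (ht0 j), C_1]
      simp only [eta, map_sub, map_mul, emb_C, emb_X0, emb_X1, mul_inv]
      linear_combination (- C (t j) * C (t j) * X 2 * C (t j)⁻¹ + C (t i) * C (t j) * X 2 * C (t j)⁻¹
        + C (t i)⁻¹ * 0 + X 3 * C (t j)⁻¹) * e2 + (- C (t j) * X 2 + C (t i) * X 2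
        - X 3 * C (t i)⁻¹) * e3
    rw [e1] at h3
    exact h3
  -- a factor of `hh`
  have h5 : C (vd t) * (X 2 * (X 3 * (X 3 ^ 2 - C (t 0 * t 1 * t 2 * t 3) * X 2 ^ 2))) ∈ P := by
    have := congrArg (emb k) (hh_formula ht0)
    simp only [map_mul, map_sub, map_pow, emb_C, emb_X0, emb_X1] at this
    have h6 := Ideal.mul_mem_right (C (t 0 * t 1 * t 2 * t 3) ^ 2) P h2
    simp only [map_mul] at h6 ⊢
    rw [this] at h6
    convert h6 using 1
    simp only [vd, map_mul, map_sub]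
    ring
  have h6 := unit _ _ (vd_ne ht) h5
  rcases hP.mem_or_mem h6 with h7 | h7
  · refine ⟨h7, ?_⟩
    have := P.sub_mem h4 (P.mul_mem_left (C (t i * t j)) h7)
    simpa using this
  rcases hP.mem_or_mem h7 with h8 | h8
  · have h9 := P.sub_mem h4 h8
    rw [add_sub_cancel_right] at h9
    exact ⟨unit _ _ (mul_ne_zero (ht0 i) (ht0 j)) h9, h8⟩
  · have h9 : C ((t i * t j) ^ 2 - t 0 * t 1 * t 2 * t 3) * (X 2 * X 2) ∈ P := by
      have h10 := P.sub_mem h8 (P.mul_mem_left (X 3 - C (t i * t j) * X 2) h4)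
      convert h10 using 1
      simp only [map_sub, map_pow, map_mul]
      ring
    have h11 := unit _ _ (sub_ne_zero.2 (hg i j hij)) h9
    have h12 : X 2 ∈ P := by
      rcases hP.mem_or_mem h11 with h | h <;> exact h
    refine ⟨h12, ?_⟩
    have := P.sub_mem h4 (P.mul_mem_left (C (t i * t j)) h12)
    simpa using this

end Pool.Agent.H67s
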