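import Mathlib
import Pool.Agent.H67s.Std4

set_option autoImplicit false

open MvPolynomial

namespace Pool.Agent.H67s

variable {k : Type*} [Field k]

/-- The closed subscheme of projective 3-space which is defined by `I` has no embedded points and
no isolated points and is of pure dimension one: the dimension of the closure of every associated
point is one. -/
def IsLCM (I : Ideal (MvPolynomial (Fin 4) k)) : Prop :=
  ∀ P ∈ associatedPrimes (MvPolynomial (Fin 4) k) (MvPolynomial (Fin 4) k ⧸ I),
    P = Ideal.span (Set.range X) ∨ ringKrullDim (MvPolynomial (Fin 4) k ⧸ P) = 2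

lemma mem_ass {I P : Ideal (MvPolynomial (Fin 4) k)} :
    P ∈ associatedPrimes (MvPolynomial (Fin 4) k) (MvPolynomial (Fin 4) k ⧸ I) ↔
      P.IsPrime ∧ ∃ F, ∀ s, s ∈ P ↔ s * F ∈ I := by
  rw [AssociatedPrimes.mem_iff, isAssociatedPrime_iff]
  refine and_congr_right fun _ => ?_
  constructor
  · rintro ⟨x, hx⟩
    obtain ⟨F, rfl⟩ := Ideal.Quotient.mk_surjective x
    refine ⟨F, fun s => ?_⟩
    rw [hx, Submodule.mem_colon_singleton, Submodule.mem_bot, ← Ideal.Quotient.eq_zero_iff_mem]
    rfl
  · rintro ⟨F, hF⟩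
    refine ⟨Ideal.Quotient.mk _ F, ?_⟩
    ext s
    rw [hF, Submodule.mem_colon_singleton, Submodule.mem_bot, ← Ideal.Quotient.eq_zero_iff_mem]
    rfl

lemma dim_two : ringKrullDim (MvPolynomial (Fin 2) k) = 2 := by
  rw [MvPolynomial.ringKrullDim_of_isNoetherianRing]
  simp

/-- The quotient by the kernel of a surjection to `k[z,w]` has dimension two. -/
lemma dim_ker (f : MvPolynomial (Fin 4) k →+* MvPolynomial (Fin 2) k)
    (hf : Function.Surjective f) : ringKrullDim (MvPolynomial (Fin 4) k ⧸ RingHom.ker f) = 2 := by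
  rw [ringKrullDim_eq_of_ringEquiv (RingHom.quotientKerEquivOfSurjective hf), dim_two]

/-- The projection to `k[z,w]`. -/
noncomputable def proj (k : Type*) [Field k] : MvPolynomial (Fin 4) k →ₐ[k] MvPolynomial (Fin 2) k :=
  aeval ![0, 0, X 0, X 1]

lemma proj_emb (c : MvPolynomial (Fin 2) k) : proj k (emb k c) = c := by
  have : (proj k).comp (emb k) = AlgHom.id k _ := by
    ext j
    fin_cases j <;> simp [proj]
  exact congrArg (fun f => f c) this

lemma proj_surj : Function.Surjective (proj k) := fun c => ⟨emb k c, proj_emb c⟩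

lemma sub_proj (F : MvPolynomial (Fin 4) k) :
    F - emb k (proj k F) ∈ Ideal.span {(X 0 : MvPolynomial (Fin 4) k), X 1} := by
  obtain ⟨a0, a1, a2, a3, b, U1, U2, U3, rfl⟩ := decomp _ F
  have h0 : proj k (X 0) = 0 := by simp [proj]
  have h1 : proj k (X 1) = 0 := by simp [proj]
  simp only [map_add, map_mul, map_pow, proj_emb, h0, h1]
  rw [Ideal.mem_span_pair]
  refine ⟨emb k b + X 0 * U1 + X 1 * U2, emb k a1 + emb k a2 * X 1 + emb k a3 * X 1 ^ 2 +
    X 1 ^ 3 * U3, ?_⟩
  simp only [map_zero]
  ring

lemma sub_constantCoeff (G : MvPolynomial (Fin 4) k) :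
    G - C (constantCoeff G) ∈ Ideal.span (Set.range (X : Fin 4 → MvPolynomial (Fin 4) k)) := by
  induction G using MvPolynomial.induction_on with
  | C r => simp
  | add p q hp hq =>
    have := add_mem hp hq
    convert this using 1
    simp only [map_add]; ring
  | mul_X p i hp =>
    simp only [map_mul, constantCoeff_X, mul_zero, C_0, sub_zero]
    exact Ideal.mul_mem_left _ _ (Ideal.subset_span ⟨i, rfl⟩)

theorem lcm_zero {t : Fin 4 → k} (ht0 : ∀ i, t i ≠ 0) (ht : Function.Injective t)
    (hg : ∀ i j, i ≠ j → (t i * t j) ^ 2 ≠ t 0 * t 1 * t 2 * t 3) :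
    IsLCM (fibre 0 (fam t)) := by
  intro P hP
  rw [mem_ass] at hP
  obtain ⟨hPp, F, hF⟩ := hP
  have hle : ∀ s ∈ fibre 0 (fam t), s ∈ P := fun s hs => (hF s).2 (Ideal.mul_mem_right _ _ hs)
  have h0 : X 0 ∈ P := hPp.mem_of_pow_mem 2 (hle _ (x2_mem ht0))
  have h1 : X 1 ∈ P := hPp.mem_of_pow_mem 4 (hle _ (y4_mem t))
  have hspan : Ideal.span {(X 0 : MvPolynomial (Fin 4) k), X 1} ≤ P := by
    rw [Ideal.span_le]
    rintro x (rfl | rfl)
    · exact h0
    · exact h1
  by_cases hz : ∀ g : MvPolynomial (Fin 2) k, emb k g ∈ P → g = 0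
  · right
    have : P = RingHom.ker (proj k).toRingHom := by
      ext G
      rw [RingHom.mem_ker]
      constructor
      · intro hG
        apply hz
        have := P.sub_mem hG (hspan (sub_proj G))
        simpa using this
      · intro hG
        have h2 := hspan (sub_proj G)
        have h3 : proj k G = 0 := hG
        rw [h3, map_zero, sub_zero] at h2
        exact h2
    rw [this]
    exact dim_ker _ proj_surj
  · left
    push Not at hz
    obtain ⟨g, hgP, hg0⟩ := hz
    have hff := ff_ne ht
    have hJ : InJ t F := inJ_mul hg0 (fibre_inJ ht0 ht hff ((hF _).1 hgP))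
    have h3 : emb k (ff t) ∈ P := (hF _).2 (ff_mul_mem ht0 hff hJ)
    have h4 : emb k (hh t) ∈ P := (hF _).2 (hh_mul_mem ht0 hff hJ)
    obtain ⟨h5, h6⟩ := zw_mem ht0 ht hg hPp h3 h4
    have hle2 : Ideal.span (Set.range (X : Fin 4 → MvPolynomial (Fin 4) k)) ≤ P := by
      rw [Ideal.span_le]
      rintro x ⟨i, rfl⟩
      fin_cases i
      · exact h0
      · exact h1
      · exact h5
      · exact h6
    refine le_antisymm ?_ hle2
    intro G hG
    -- if the constant coefficient of `G` is not zero then `P` contains a unit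
    have h7 := sub_constantCoeff G
    have h8 : C (constantCoeff G) ∈ P := by
      have := P.sub_mem hG (hle2 h7)
      simpa using this
    have h9 : constantCoeff G = 0 := by
      by_contra hne
      apply hPp.ne_top
      rw [Ideal.eq_top_iff_one]
      have := P.mul_mem_left (C (constantCoeff G)⁻¹) h8
      rwa [← C_mul, inv_mul_cancel₀ hne, C_1] at this
    rw [h9, C_0, sub_zero] at h7
    exact h7

end Pool.Agent.H67s
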