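import Mathlib
import Pool.Agent.H67s.Std5

set_option autoImplicit false

open MvPolynomial

namespace Pool.Agent.H67s

variable {k : Type*} [Field k]

lemma phi_eval (t : Fin 4 → k) (a : k) (i : Fin 4) (G : MvPolynomial (Fin 4) (Polynomial k)) :
    Polynomial.eval (C a) (phi t i G) = phiA t a i (ev (Fin 4) a G) := by
  have : (Polynomial.evalRingHom (C a : MvPolynomial (Fin 2) k)).comp (phi t i) =
      (phiA t a i).toRingHom.comp (ev (Fin 4) a) := by
    apply MvPolynomial.ringHom_ext
    · intro p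
      simp only [RingHom.coe_comp, Function.comp_apply, phi_C, Polynomial.coe_evalRingHom, ev,
        map_C, AlgHom.toRingHom_eq_coe, RingHom.coe_coe]
      rw [Polynomial.eval_map, Polynomial.eval₂_hom]
      simp [phiA, algebraMap_eq]
    · intro j
      fin_cases j <;> simp [phiA]
      ring
      ring
  exact congrArg (fun f => f G) this

lemma lift_exists (t : Fin 4 → k) {a : k} (ha : a ≠ 0) (F : MvPolynomial (Fin 4) k) :
    ∃ (N : ℕ) (G : MvPolynomial (Fin 4) (Polynomial k)), ev (Fin 4) a G = F ∧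
      ∀ i, phi t i G = Polynomial.C (C (a⁻¹ ^ N) * phiA t a i F) * Polynomial.X ^ N := by
  obtain ⟨u, hs, hp⟩ : ∃ u : MvPolynomial (Fin 4) (Polynomial k), ev (Fin 4) a u = 1 ∧
      ∀ i, phi t i u = Polynomial.C (C a⁻¹) * Polynomial.X := by
    refine ⟨C (Polynomial.C a⁻¹ * Polynomial.X), ?_, fun i => by simp⟩
    rw [ev, map_C]
    simp only [Polynomial.coe_evalRingHom, Polynomial.eval_mul, Polynomial.eval_C,
      Polynomial.eval_X, inv_mul_cancel₀ ha, C_1]
  have hc : (C a⁻¹ * C a : MvPolynomial (Fin 2) k) = 1 := by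
    rw [← C_mul, inv_mul_cancel₀ ha, C_1]
  induction F using MvPolynomial.induction_on with
  | C r =>
    refine ⟨0, C (Polynomial.C r), by simp [ev], fun i => ?_⟩
    simp [phiA]
  | add p q hp' hq' =>
    obtain ⟨N1, G1, h1, h1'⟩ := hp'
    obtain ⟨N2, G2, h2, h2'⟩ := hq'
    refine ⟨N1 + N2, G1 * u ^ N2 + G2 * u ^ N1, ?_, fun i => ?_⟩
    · rw [map_add, map_mul, map_mul, map_pow, map_pow, hs, h1, h2]; simp
    · rw [map_add, map_mul, map_mul, map_pow, map_pow, hp, h1', h2']
      simp only [map_add, map_mul, map_pow]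
      ring
  | mul_X p j hp' =>
    obtain ⟨N, G, h1, h1'⟩ := hp'
    have hc' : (Polynomial.C (C a⁻¹) * Polynomial.C (C a) : Polynomial (MvPolynomial (Fin 2) k)) =
        1 := by
      rw [← map_mul, hc, map_one]
    fin_cases j
    · refine ⟨N + 3, G * X 0, by rw [map_mul, h1]; simp, fun i => ?_⟩
      have hx : phiA t a i (X 0) = C (a ^ 3) * xi t i := by simp [phiA]
      simp only [Fin.zero_eta, Fin.isValue, map_mul, map_pow, phi_X0, h1', hx]
      linear_combination (- Polynomial.C (C a⁻¹) ^ N * Polynomial.C (phiA t a i p) *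
        Polynomial.C (xi t i) * Polynomial.X ^ (N + 3)) *
        ((Polynomial.C (C a⁻¹) * Polynomial.C (C a)) ^ 2 +
          (Polynomial.C (C a⁻¹) * Polynomial.C (C a)) + 1) * hc'
    · refine ⟨N + 1, G * X 1, by rw [map_mul, h1]; simp, fun i => ?_⟩
      have hx : phiA t a i (X 1) = C a * eta t i := by simp [phiA]
      simp only [Fin.mk_one, Fin.isValue, map_mul, map_pow, phi_X1, h1', hx]
      linear_combination (- Polynomial.C (C a⁻¹) ^ N * Polynomial.C (phiA t a i p) *
        Polynomial.C (eta t i) * Polynomial.X ^ (N + 1)) * hc'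
    · refine ⟨N, G * X 2, by rw [map_mul, h1]; simp, fun i => ?_⟩
      have hx : phiA t a i (X 2) = X 0 := by simp [phiA]
      simp only [Fin.reduceFinMk, Fin.isValue, map_mul, map_pow, phi_X2, h1', hx]
      ring
    · refine ⟨N, G * X 3, by rw [map_mul, h1]; simp, fun i => ?_⟩
      have hx : phiA t a i (X 3) = X 1 := by simp [phiA]
      simp only [Fin.reduceFinMk, Fin.isValue, map_mul, map_pow, phi_X3, h1', hx]
      ring

lemma mem_fibre_ne (t : Fin 4 → k) {a : k} (ha : a ≠ 0) (F : MvPolynomial (Fin 4) k) :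
    F ∈ fibre a (fam t) ↔ ∀ i, phiA t a i F = 0 := by
  rw [mem_fibre]
  constructor
  · rintro ⟨G, hG, rfl⟩ i
    rw [← phi_eval, mem_fam.1 hG i, Polynomial.eval_zero]
  · intro h
    obtain ⟨N, G, h1, h2⟩ := lift_exists t ha F
    refine ⟨G, mem_fam.2 fun i => ?_, h1⟩
    rw [h2, h i]; simp

lemma phiA_surj (t : Fin 4 → k) (a : k) (i : Fin 4) : Function.Surjective (phiA t a i) := by
  intro c
  refine ⟨emb k c, ?_⟩
  have : (phiA t a i).comp (emb k) = AlgHom.id k _ := by
    ext j
    fin_cases j <;> simp [phiA]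
  exact congrArg (fun f => f c) this

theorem lcm_ne (t : Fin 4 → k) {a : k} (ha : a ≠ 0) : IsLCM (fibre a (fam t)) := by
  intro P hP
  rw [mem_ass] at hP
  obtain ⟨hPp, F, hF⟩ := hP
  right
  -- `P` is the intersection of the kernels of the `phiA t a i` which do not vanish on `F`
  obtain ⟨i, hi⟩ : ∃ i, RingHom.ker (phiA t a i).toRingHom = P := by
    classical
    have h1 : (Finset.univ.filter fun i => phiA t a i F ≠ 0).inf
        (fun i => RingHom.ker (phiA t a i).toRingHom) ≤ P := by
      intro s hs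
      rw [hF, mem_fibre_ne t ha]
      intro i
      rw [map_mul]
      by_cases h : phiA t a i F = 0
      · rw [h, mul_zero]
      · have : s ∈ RingHom.ker (phiA t a i).toRingHom := by
          have h2 : (Finset.univ.filter fun i => phiA t a i F ≠ 0).inf
            (fun i => RingHom.ker (phiA t a i).toRingHom) ≤ RingHom.ker (phiA t a i).toRingHom :=
            Finset.inf_le (by simpa using h)
          exact h2 hs
        have h3 : phiA t a i s = 0 := this
        rw [h3, zero_mul]
    obtain ⟨i, hi, hiP⟩ := (hPp.inf_le').1 h1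
    refine ⟨i, le_antisymm hiP ?_⟩
    intro s hs
    rw [hF, mem_fibre_ne t ha] at hs
    have := hs i
    rw [map_mul] at this
    exact (mul_eq_zero.1 this).resolve_right (by simpa using hi)
  rw [← hi]
  exact dim_ker _ (phiA_surj t a i)

/-- All coefficients are homogeneous of degree `n`. -/
def Hom (n : ℕ) (P : Polynomial (MvPolynomial (Fin 2) k)) : Prop :=
  ∀ m, (P.coeff m).IsHomogeneous n

lemma Hom.mul {n m : ℕ} {P Q : Polynomial (MvPolynomial (Fin 2) k)} (hP : Hom n P) (hQ : Hom m Q) :
    Hom (n + m) (P * Q) := by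
  intro l
  rw [Polynomial.coeff_mul]
  exact IsHomogeneous.sum _ _ _ fun i _ => (hP _).mul (hQ _)

lemma Hom.one : Hom 0 (1 : Polynomial (MvPolynomial (Fin 2) k)) := by
  intro l
  rw [Polynomial.coeff_one]
  split_ifs
  · exact isHomogeneous_one _ _
  · exact isHomogeneous_zero _ _ _

lemma Hom.pow {n m : ℕ} {P : Polynomial (MvPolynomial (Fin 2) k)} (hP : Hom n P) :
    Hom (n * m) (P ^ m) := by
  induction m with
  | zero => simpa using Hom.one
  | succ m ih => rw [pow_succ, Nat.mul_succ]; exact ih.mul hP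

lemma Hom.sum {ι : Type*} (s : Finset ι) {n : ℕ} (P : ι → Polynomial (MvPolynomial (Fin 2) k))
    (h : ∀ i ∈ s, Hom n (P i)) : Hom n (∑ i ∈ s, P i) := by
  intro l
  rw [Polynomial.finsetSum_coeff]
  exact IsHomogeneous.sum _ _ _ fun i hi => h i hi l

lemma Hom.prod {ι : Type*} (s : Finset ι) (n : ι → ℕ) (P : ι → Polynomial (MvPolynomial (Fin 2) k))
    (h : ∀ i ∈ s, Hom (n i) (P i)) : Hom (∑ i ∈ s, n i) (∏ i ∈ s, P i) := by
  classical
  induction s using Finset.induction_on with
  | empty => simpa using Hom.one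
  | insert i s hi ih =>
    rw [Finset.sum_insert hi, Finset.prod_insert hi]
    exact (h i (Finset.mem_insert_self i s)).mul (ih fun j hj => h j (Finset.mem_insert_of_mem hj))

lemma hom_of_gens (f : MvPolynomial (Fin 4) (Polynomial k) →+* Polynomial (MvPolynomial (Fin 2) k))
    (hC : ∀ p, Hom 0 (f (C p))) (hX : ∀ i, Hom 1 (f (X i)))
    {F : MvPolynomial (Fin 4) (Polynomial k)} {n : ℕ} (hF : F.IsHomogeneous n) : Hom n (f F) := by
  rw [F.as_sum, map_sum]
  refine Hom.sum _ _ fun d hd => ?_
  rw [monomial_eq, map_mul, Finsupp.prod, map_prod]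
  have h1 : Hom (∑ i ∈ d.support, d i) (∏ i ∈ d.support, f (X i ^ d i)) := by
    refine Hom.prod _ _ _ fun i _ => ?_
    rw [map_pow]
    simpa using (hX i).pow (m := d i)
  have h2 := (hC (coeff d F)).mul h1
  have h3 : ∑ i ∈ d.support, d i = n := by
    have := hF (mem_support_iff.1 hd)
    simpa [Finsupp.degree, Finsupp.weight_apply, Finsupp.sum] using this
  rwa [zero_add, h3] at h2

lemma hom_component (f : MvPolynomial (Fin 4) (Polynomial k) →+* Polynomial (MvPolynomial (Fin 2) k))
    (hC : ∀ p, Hom 0 (f (C p))) (hX : ∀ i, Hom 1 (f (X i)))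
    {F : MvPolynomial (Fin 4) (Polynomial k)} (hF : f F = 0) (n : ℕ) :
    f (homogeneousComponent n F) = 0 := by
  ext1 m
  rw [Polynomial.coeff_zero]
  by_cases hn : n < F.totalDegree + 1
  · have h1 : ∑ j ∈ Finset.range (F.totalDegree + 1), (f (homogeneousComponent j F)).coeff m = 0 := by
      rw [← Polynomial.finsetSum_coeff, ← map_sum, sum_homogeneousComponent, hF,
        Polynomial.coeff_zero]
    have h2 := congrArg (homogeneousComponent n) h1
    have h3 : ∀ j, homogeneousComponent n ((f (homogeneousComponent j F)).coeff m) =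
        if n = j then (f (homogeneousComponent j F)).coeff m else 0 := fun j =>
      homogeneousComponent_of_mem
        (hom_of_gens f hC hX (homogeneousComponent_isHomogeneous j F) m)
    simp only [map_sum, map_zero, h3] at h2
    rwa [Finset.sum_ite_eq, if_pos (Finset.mem_range.2 hn)] at h2
  · rw [homogeneousComponent_eq_zero _ _ (by omega), map_zero, Polynomial.coeff_zero]

lemma phi_hom_C (t : Fin 4 → k) (i : Fin 4) (p : Polynomial k) : Hom 0 (phi t i (C p)) := by
  intro m
  rw [phi_C, Polynomial.coeff_map]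
  exact isHomogeneous_C _ _

lemma phi_hom_X (t : Fin 4 → k) (i j : Fin 4) : Hom 1 (phi t i (X j)) := by
  intro m
  fin_cases j
  · simp only [Fin.zero_eta, Fin.isValue, phi_X0, Polynomial.coeff_C_mul, Polynomial.coeff_X_pow]
    split_ifs
    · rw [mul_one, xi]; exact (isHomogeneous_X _ _).C_mul _
    · rw [mul_zero]; exact isHomogeneous_zero _ _ _
  · simp only [Fin.mk_one, Fin.isValue, phi_X1, Polynomial.coeff_C_mul, Polynomial.coeff_X]
    split_ifs
    · rw [mul_one, eta]; exact ((isHomogeneous_X _ _).C_mul _).sub ((isHomogeneous_X _ _).C_mul _)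
    · rw [mul_zero]; exact isHomogeneous_zero _ _ _
  · simp only [Fin.reduceFinMk, Fin.isValue, phi_X2, Polynomial.coeff_C]
    split_ifs
    · exact isHomogeneous_X _ _
    · exact isHomogeneous_zero _ _ _
  · simp only [Fin.reduceFinMk, Fin.isValue, phi_X3, Polynomial.coeff_C]
    split_ifs
    · exact isHomogeneous_X _ _
    · exact isHomogeneous_zero _ _ _

end Pool.Agent.H67s
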