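import Mathlib
import Pool.Agent.H67s.Std6

/-!
Linear changes of coordinates.
-/

set_option autoImplicit false

open MvPolynomial

namespace Pool.Agent.H67s

/-- The substitution `v ↦ N v`. -/
noncomputable def sub {R : Type*} [CommRing R] (N : Matrix (Fin 4) (Fin 4) R) :
    MvPolynomial (Fin 4) R →ₐ[R] MvPolynomial (Fin 4) R :=
  aeval (fun i => ∑ j, C (N i j) * X j)

section
variable {R : Type*} [CommRing R]

lemma sub_X (N : Matrix (Fin 4) (Fin 4) R) (i : Fin 4) : sub N (X i) = ∑ j, C (N i j) * X j := by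
  simp [sub]

lemma sub_sub (M N : Matrix (Fin 4) (Fin 4) R) (F : MvPolynomial (Fin 4) R) :
    sub N (sub M F) = sub (M * N) F := by
  have : (sub N).comp (sub M) = sub (M * N) := by
    ext1 i
    simp only [AlgHom.comp_apply, sub_X, map_sum, map_mul, Matrix.mul_apply]
    have hC : ∀ r, sub N (C r) = C r := fun r => by simp [sub, algebraMap_eq]
    simp only [hC, sub_X, Finset.mul_sum, Finset.sum_mul]
    rw [Finset.sum_comm]
    refine Finset.sum_congr rfl fun l _ => Finset.sum_congr rfl fun j _ => ?_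
    ring
  exact congrArg (fun f => f F) this

lemma sub_one (F : MvPolynomial (Fin 4) R) : sub (1 : Matrix (Fin 4) (Fin 4) R) F = F := by
  have : sub (1 : Matrix (Fin 4) (Fin 4) R) = AlgHom.id R _ := by
    ext1 i
    rw [sub_X, Finset.sum_eq_single i]
    · simp
    · intro j _ hj
      rw [Matrix.one_apply_ne (Ne.symm hj)]; simp
    · intro h; exact absurd (Finset.mem_univ i) h
  rw [this]; rfl

lemma sub_eval (N : Matrix (Fin 4) (Fin 4) R) (F : MvPolynomial (Fin 4) R) (v : Fin 4 → R) :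
    eval v (sub N F) = eval (N.mulVec v) F := by
  have : (eval v).comp (sub N).toRingHom = eval (N.mulVec v) := by
    apply MvPolynomial.ringHom_ext
    · intro r; simp [sub]
    · intro i
      simp only [AlgHom.toRingHom_eq_coe, RingHom.coe_comp, RingHom.coe_coe, Function.comp_apply,
        sub_X, map_sum, map_mul, eval_C, eval_X]
      rfl
  exact congrArg (fun f => f F) this

lemma sub_homog (N : Matrix (Fin 4) (Fin 4) R) {F : MvPolynomial (Fin 4) R} {n : ℕ}
    (hF : F.IsHomogeneous n) : (sub N F).IsHomogeneous n := by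
  have := hF.aeval (fun i => ∑ j, C (N i j) * X j)
    (n := 1) (fun i => IsHomogeneous.sum _ _ _ fun j _ => (isHomogeneous_X _ _).C_mul _)
  rwa [one_mul] at this

end

variable {k : Type*} [Field k]

/-- The matrix over `k[T]`. -/
noncomputable def up (N : Matrix (Fin 4) (Fin 4) k) : Matrix (Fin 4) (Fin 4) (Polynomial k) :=
  N.map Polynomial.C

lemma up_mul (M N : Matrix (Fin 4) (Fin 4) k) : up M * up N = up (M * N) := by
  simp [up, Matrix.map_mul]

lemma up_one : up (1 : Matrix (Fin 4) (Fin 4) k) = 1 := by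
  simp [up, Matrix.map_one]

lemma ev_sub (N : Matrix (Fin 4) (Fin 4) k) (a : k) (G : MvPolynomial (Fin 4) (Polynomial k)) :
    ev (Fin 4) a (sub (up N) G) = sub N (ev (Fin 4) a G) := by
  have : (ev (Fin 4) a).comp (sub (up N)).toRingHom = (sub N).toRingHom.comp (ev (Fin 4) a) := by
    apply MvPolynomial.ringHom_ext
    · intro r; simp [sub, ev, algebraMap_eq]
    · intro i
      simp only [AlgHom.toRingHom_eq_coe, RingHom.coe_comp, RingHom.coe_coe, Function.comp_apply,
        sub_X, map_sum, map_mul, ev_X]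
      refine Finset.sum_congr rfl fun j _ => ?_
      simp [ev, up]
  exact congrArg (fun f => f G) this

/-- The family in arbitrary coordinates. -/
noncomputable def famN (N : Matrix (Fin 4) (Fin 4) k) (t : Fin 4 → k) :
    Ideal (MvPolynomial (Fin 4) (Polynomial k)) :=
  (fam t).comap (sub (up N)).toRingHom

lemma mem_famN {N : Matrix (Fin 4) (Fin 4) k} {t : Fin 4 → k}
    {G : MvPolynomial (Fin 4) (Polynomial k)} :
    G ∈ famN N t ↔ ∀ i, phi t i (sub (up N) G) = 0 := by
  rw [famN, Ideal.mem_comap]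
  exact mem_fam

lemma mem_famN' {N : Matrix (Fin 4) (Fin 4) k} {t : Fin 4 → k}
    {G : MvPolynomial (Fin 4) (Polynomial k)} :
    G ∈ famN N t ↔ sub (up N) G ∈ fam t := by
  rw [mem_famN, mem_fam]

lemma mem_fibre_famN {N M : Matrix (Fin 4) (Fin 4) k} (hNM : N * M = 1) {t : Fin 4 → k} {a : k}
    {F : MvPolynomial (Fin 4) k} : F ∈ fibre a (famN N t) ↔ sub N F ∈ fibre a (fam t) := by
  have hMN : M * N = 1 := mul_eq_one_comm.1 hNM
  rw [mem_fibre, mem_fibre]
  constructor
  · rintro ⟨G, hG, rfl⟩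
    exact ⟨sub (up N) G, mem_famN'.1 hG, ev_sub N a G⟩
  · rintro ⟨G, hG, h⟩
    refine ⟨sub (up M) G, ?_, ?_⟩
    · rwa [mem_famN', sub_sub, up_mul, hMN, up_one, sub_one]
    · rw [ev_sub, h, sub_sub, hNM, sub_one]

lemma span_X_eq (G : MvPolynomial (Fin 4) k) :
    G ∈ Ideal.span (Set.range (X : Fin 4 → MvPolynomial (Fin 4) k)) ↔ eval 0 G = 0 := by
  constructor
  · intro hG
    have : Ideal.span (Set.range (X : Fin 4 → MvPolynomial (Fin 4) k)) ≤ RingHom.ker (eval 0) := by
      rw [Ideal.span_le]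
      rintro x ⟨i, rfl⟩
      simp [RingHom.mem_ker]
    exact this hG
  · intro hG
    have h := sub_constantCoeff G
    rw [constantCoeff_eq, ← constantCoeff_eq] at h
    have h2 : constantCoeff G = 0 := by
      rw [← hG, eval_zero]
    rw [h2, C_0, sub_zero] at h
    exact h

lemma lcm_famN {N M : Matrix (Fin 4) (Fin 4) k} (hNM : N * M = 1) {t : Fin 4 → k} {a : k}
    (h : IsLCM (fibre a (fam t))) : IsLCM (fibre a (famN N t)) := by
  have hMN : M * N = 1 := mul_eq_one_comm.1 hNM
  intro P hP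
  rw [mem_ass] at hP
  obtain ⟨hPp, F, hF⟩ := hP
  set P' : Ideal (MvPolynomial (Fin 4) k) := P.comap (sub M).toRingHom with hP'
  have hP'' : ∀ s, s ∈ P' ↔ sub M s ∈ P := by
    intro s
    rw [hP', Ideal.mem_comap, AlgHom.toRingHom_eq_coe, RingHom.coe_coe]
  have hPN : ∀ s, sub N s ∈ P' ↔ s ∈ P := by
    intro s
    rw [hP'', sub_sub, hNM, sub_one]
  have h1 : P' ∈ associatedPrimes (MvPolynomial (Fin 4) k)
      (MvPolynomial (Fin 4) k ⧸ fibre a (fam t)) := by
    rw [mem_ass]
    refine ⟨hPp.comap _, sub N F, fun s => ?_⟩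
    rw [hP'', hF, mem_fibre_famN hNM, map_mul, sub_sub, hMN, sub_one]
  rcases h P' h1 with h2 | h2
  · left
    ext s
    rw [← hPN, h2, span_X_eq, span_X_eq, sub_eval]
    simp
  · right
    have hsurj : Function.Surjective (sub M : MvPolynomial (Fin 4) k → MvPolynomial (Fin 4) k) :=
      fun s => ⟨sub N s, by rw [sub_sub, hNM, sub_one]⟩
    have e : MvPolynomial (Fin 4) k ⧸ P' ≃+* MvPolynomial (Fin 4) k ⧸ P := by
      have hbij : Function.Bijective
          (Ideal.quotientMap P (sub M).toRingHom (le_refl P') :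
            MvPolynomial (Fin 4) k ⧸ P' →+* MvPolynomial (Fin 4) k ⧸ P) :=
        ⟨Ideal.quotientMap_injective, Ideal.quotientMap_surjective hsurj⟩
      exact RingEquiv.ofBijective _ hbij
    rw [← ringKrullDim_eq_of_ringEquiv e, h2]

lemma famN_homog (N : Matrix (Fin 4) (Fin 4) k) (t : Fin 4 → k)
    {F : MvPolynomial (Fin 4) (Polynomial k)} (hF : F ∈ famN N t) (n : ℕ) :
    homogeneousComponent n F ∈ famN N t := by
  rw [mem_famN] at hF ⊢
  intro i
  refine hom_component ((phi t i).comp (sub (up N)).toRingHom) (fun p => ?_) (fun j => ?_) (hF i) n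
  · have : sub (up N) (C p) = C p := by simp [sub, algebraMap_eq]
    change Hom 0 (phi t i (sub (up N) (C p)))
    rw [this]
    exact phi_hom_C t i p
  · change Hom 1 (phi t i (sub (up N) (X j)))
    rw [sub_X, map_sum]
    refine Hom.sum _ _ fun l _ => ?_
    rw [map_mul]
    have := (phi_hom_C t i (up N j l)).mul (phi_hom_X t i l)
    rwa [zero_add] at this

lemma famN_flat (N : Matrix (Fin 4) (Fin 4) k) (t : Fin 4 → k) :
    Module.Flat (Polynomial k) (MvPolynomial (Fin 4) (Polynomial k) ⧸ famN N t) := by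
  rw [Module.Flat.flat_iff_torsion_eq_bot_of_isBezout, eq_bot_iff]
  rintro m ⟨⟨r, hr⟩, h⟩
  obtain ⟨F, rfl⟩ := Ideal.Quotient.mk_surjective m
  have hr0 : ¬ r = 0 := nonZeroDivisors.ne_zero hr
  have h1 : C r * F ∈ famN N t := by
    rw [← Ideal.Quotient.eq_zero_iff_mem, ← h]
    change Ideal.Quotient.mk (famN N t) (C r * F) = r • Ideal.Quotient.mk (famN N t) F
    rw [← smul_eq_C_mul]
    rfl
  rw [Submodule.mem_bot, Ideal.Quotient.eq_zero_iff_mem, mem_famN]
  intro i
  have h2 := mem_famN.1 h1 i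
  have hC : sub (up N) (C r) = C r := by simp [sub, algebraMap_eq]
  rw [map_mul, map_mul, hC, phi_C] at h2
  refine (mul_eq_zero.1 h2).resolve_left ?_
  rwa [Polynomial.map_eq_zero_iff (C_injective _ _)]

end Pool.Agent.H67s
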