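import Mathlib

/-!
Normal form of four pairwise skew lines on a nonsingular quadric surface.
-/

set_option autoImplicit false

open MvPolynomial

namespace Pool.Agent.H67s

variable {k : Type*} [Field k]

lemma degree_two (d : Fin 4 →₀ ℕ) (hd : d.degree = 2) :
    ∃ i j, d = Finsupp.single i 1 + Finsupp.single j 1 := by
  have step : ∀ (n : ℕ) (e : Fin 4 →₀ ℕ), e.degree = n + 1 →
      ∃ i e', e = Finsupp.single i 1 + e' ∧ e'.degree = n := by
    intro n e he
    have hne : e ≠ 0 := by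
      rintro rfl
      simp at he
    obtain ⟨i, hi⟩ := Finsupp.ne_iff.1 hne
    have hle : Finsupp.single i 1 ≤ e := by
      rw [Finsupp.single_le_iff]
      exact Nat.one_le_iff_ne_zero.2 hi
    have h1 : e = Finsupp.single i 1 + (e - Finsupp.single i 1) := (add_tsub_cancel_of_le hle).symm
    refine ⟨i, e - Finsupp.single i 1, h1, ?_⟩
    have h2 := congrArg Finsupp.degree h1
    rw [map_add, he, Finsupp.degree_single] at h2
    omega
  obtain ⟨i, e, rfl, he⟩ := step 1 d hd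
  obtain ⟨j, e', rfl, he'⟩ := step 0 e he
  have : e' = 0 := (Finsupp.degree_eq_zero_iff e').1 he'
  exact ⟨i, j, by rw [this, add_zero]⟩

lemma quad_form {q : MvPolynomial (Fin 4) k} (hq : q.IsHomogeneous 2) :
    ∃ B : (Fin 4 → k) →ₗ[k] (Fin 4 → k) →ₗ[k] k, ∀ v, eval v q = B v v := by
  have key : ∀ d ∈ q.support, ∃ B : (Fin 4 → k) →ₗ[k] (Fin 4 → k) →ₗ[k] k,
      ∀ v, eval v (monomial d (coeff d q)) = B v v := by
    intro d hd
    have h2 : d.degree = 2 := by
      have := hq (mem_support_iff.1 hd)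
      rwa [Finsupp.degree_eq_weight_one]
    obtain ⟨i, j, rfl⟩ := degree_two d h2
    refine ⟨(coeff (Finsupp.single i 1 + Finsupp.single j 1) q) •
      LinearMap.mk₂ k (fun u v => u i * v j) (by intros; simp; ring) (by intros; simp; ring)
        (by intros; simp; ring) (by intros; simp; ring), fun v => ?_⟩
    have h3 : (monomial (Finsupp.single i 1 + Finsupp.single j 1)
        (coeff (Finsupp.single i 1 + Finsupp.single j 1) q)) =
        C (coeff (Finsupp.single i 1 + Finsupp.single j 1) q) * X i * X j := by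
      rw [C_mul_X_eq_monomial, X, monomial_mul, mul_one]
    rw [h3]
    simp
    ring
  choose! B hB using key
  refine ⟨∑ d ∈ q.support, B d, fun v => ?_⟩
  conv_lhs => rw [q.as_sum, map_sum]
  simp only [LinearMap.sum_apply]
  exact Finset.sum_congr rfl fun d hd => hB d hd v

lemma span_of_two {V : Type*} [AddCommGroup V] [Module k V] (W : Submodule k V)
    (hW : Module.finrank k W = 2) {r1 r2 : V} (h1 : r1 ∈ W) (h2 : r2 ∈ W)
    (hind : ∀ α β : k, α • r1 + β • r2 = 0 → α = 0 ∧ β = 0) (v : V) (hv : v ∈ W) :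
    ∃ α β : k, v = α • r1 + β • r2 := by
  have hli : LinearIndependent k ![(⟨r1, h1⟩ : W), ⟨r2, h2⟩] := by
    rw [LinearIndependent.pair_iff]
    intro s t hst
    apply hind
    simpa using congrArg Subtype.val hst
  have : FiniteDimensional k W := Module.finite_of_finrank_pos (by rw [hW]; norm_num)
  have hsp := hli.span_eq_top_of_card_eq_finrank' (by simp [hW])
  have hv' : (⟨v, hv⟩ : W) ∈ Submodule.span k (Set.range ![(⟨r1, h1⟩ : W), ⟨r2, h2⟩]) := by
    rw [hsp]; trivial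
  rw [Matrix.range_cons, Matrix.range_cons, Matrix.range_empty, Set.union_empty,
    Set.singleton_union, Submodule.mem_span_pair] at hv'
  obtain ⟨α, β, h⟩ := hv'
  exact ⟨α, β, by simpa using (congrArg Subtype.val h).symm⟩

lemma coeff_two (a b c : k) : (Polynomial.C a * Polynomial.X ^ 2 + Polynomial.C b * Polynomial.X +
    Polynomial.C c : Polynomial k).coeff 2 = a := by
  simp [Polynomial.coeff_X, Polynomial.coeff_C]

/-- The choice of the coordinate on the ruling. -/
lemma exists_param [Infinite k] {l : k} (hl0 : l ≠ 0) (hl1 : l ≠ 1) :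
    ∃ g d : k, g ≠ 0 ∧ 1 - g ≠ 0 ∧ l - g ≠ 0 ∧ d ≠ 0 ∧ d + 1 ≠ 0 ∧ d + l ≠ 0 ∧ d + g ≠ 0 ∧
      -d * ((1 - g) * (l - g)) ≠ g * ((d + 1) * (d + l)) ∧
      -d * (d + 1) * (l - g) ≠ g * (1 - g) * (d + l) ∧
      -d * (d + l) * (1 - g) ≠ g * (l - g) * (d + 1) := by
  classical
  obtain ⟨g, hg⟩ : ∃ g : k, g ∉ ({0, 1, l} : Finset k) := Infinite.exists_notMem_finset _
  simp only [Finset.mem_insert, Finset.mem_singleton, not_or] at hg
  obtain ⟨hg0, hg1, hgl⟩ := hg
  have hg1' : 1 - g ≠ 0 := sub_ne_zero.2 (Ne.symm hg1)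
  have hgl' : l - g ≠ 0 := sub_ne_zero.2 (Ne.symm hgl)
  let x : Polynomial k := Polynomial.X
  let c : k → Polynomial k := Polynomial.C
  let p1 : Polynomial k := c g * ((x + 1) * (x + c l)) + x * c ((1 - g) * (l - g))
  let p2 : Polynomial k := c (g * (1 - g)) * (x + c l) + x * (x + 1) * c (l - g)
  let p3 : Polynomial k := c (g * (l - g)) * (x + 1) + x * (x + c l) * c (1 - g)
  have q1 : p1.coeff 2 = g := by
    have : p1 = c g * x ^ 2 + c (g * (1 + l) + (1 - g) * (l - g)) * x + c (g * l) := by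
      simp only [p1, c, x, map_add, map_mul, map_one]; ring
    rw [this]; exact coeff_two _ _ _
  have q2 : p2.coeff 2 = l - g := by
    have : p2 = c (l - g) * x ^ 2 + c (g * (1 - g) + (l - g)) * x + c (g * (1 - g) * l) := by
      simp only [p2, c, x, map_add, map_mul]; ring
    rw [this]; exact coeff_two _ _ _
  have q3 : p3.coeff 2 = 1 - g := by
    have : p3 = c (1 - g) * x ^ 2 + c (g * (l - g) + l * (1 - g)) * x + c (g * (l - g)) := by
      simp only [p3, c, x, map_add, map_mul]; ring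
    rw [this]; exact coeff_two _ _ _
  have n1 : p1 ≠ 0 := fun h => hg0 (by rw [← q1, h, Polynomial.coeff_zero])
  have n2 : p2 ≠ 0 := fun h => hgl' (by rw [← q2, h, Polynomial.coeff_zero])
  have n3 : p3 ≠ 0 := fun h => hg1' (by rw [← q3, h, Polynomial.coeff_zero])
  have nx : ∀ a : k, x + c a ≠ 0 := fun a => Polynomial.X_add_C_ne_zero a
  have hprod : (x + c 0) * (x + c 1) * (x + c l) * (x + c g) * p1 * p2 * p3 ≠ 0 :=
    mul_ne_zero (mul_ne_zero (mul_ne_zero (mul_ne_zero (mul_ne_zero (mul_ne_zero (nx 0) (nx 1))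
      (nx l)) (nx g)) n1) n2) n3
  obtain ⟨d, hd⟩ : ∃ d, Polynomial.eval d
      ((x + c 0) * (x + c 1) * (x + c l) * (x + c g) * p1 * p2 * p3) ≠ 0 := by
    by_contra hcon
    push Not at hcon
    exact hprod (Polynomial.funext fun r => by rw [hcon r, Polynomial.eval_zero])
  simp only [Polynomial.eval_mul, mul_ne_zero_iff] at hd
  obtain ⟨⟨⟨⟨⟨⟨e0, e1⟩, el⟩, eg⟩, d1⟩, d2⟩, d3⟩ := hd
  simp only [x, c, p1, p2, p3, Polynomial.eval_add, Polynomial.eval_X, Polynomial.eval_C,
    Polynomial.eval_mul, Polynomial.eval_one, add_zero] at e0 e1 el eg d1 d2 d3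
  refine ⟨g, d, hg0, hg1', hgl', e0, e1, el, eg, fun h => d1 ?_, fun h => d2 ?_, fun h => d3 ?_⟩
  · linear_combination -h
  · linear_combination -h
  · linear_combination -h

/-- The quadric is nonsingular: its equation and the partial derivatives have no common zero. -/
def Nonsingular (q : MvPolynomial (Fin 4) k) : Prop :=
  ∀ v : Fin 4 → k, v ≠ 0 → eval v q = 0 → ∃ i, eval v (pderiv i q) ≠ 0

lemma sup_top {L : Fin 4 → Submodule k (Fin 4 → k)} (hdim : ∀ i, Module.finrank k (L i) = 2)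
    (hskew : ∀ i j, i ≠ j → Disjoint (L i) (L j)) {i j : Fin 4} (hij : i ≠ j) (v : Fin 4 → k) :
    ∃ a ∈ L i, ∃ b ∈ L j, a + b = v := by
  have h1 := Submodule.finrank_sup_add_finrank_inf_eq (L i) (L j)
  rw [(hskew i j hij).eq_bot, finrank_bot, hdim, hdim, add_zero] at h1
  have h2 : L i ⊔ L j = ⊤ := Submodule.eq_top_of_finrank_eq (by rw [h1]; simp)
  have h3 : v ∈ L i ⊔ L j := by rw [h2]; trivial
  exact Submodule.mem_sup.1 h3

/-- Basis of the space adapted to the four lines. -/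
lemma adapted [Infinite k] {q : MvPolynomial (Fin 4) k} (hq : q.IsHomogeneous 2)
    (hns : Nonsingular q)
    {L : Fin 4 → Submodule k (Fin 4 → k)} (hdim : ∀ i, Module.finrank k (L i) = 2)
    (hskew : ∀ i j, i ≠ j → Disjoint (L i) (L j))
    (hLq : ∀ i, ∀ v ∈ L i, eval v q = 0) :
    ∃ (e1 e2 f1 f2 : Fin 4 → k) (l c : k), l ≠ 0 ∧ l ≠ 1 ∧ c ≠ 0 ∧
      (∀ a1 a2 b1 b2 : k, a1 • e1 + a2 • e2 + b1 • f1 + b2 • f2 = 0 →
        a1 = 0 ∧ a2 = 0 ∧ b1 = 0 ∧ b2 = 0) ∧
      (∀ a1 a2 b1 b2 : k, eval (a1 • e1 + a2 • e2 + b1 • f1 + b2 • f2) q =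
        c * (a1 * b2 - a2 * b1)) ∧
      (∀ v, v ∈ L 0 ↔ ∃ α β : k, v = α • e1 + β • e2) ∧
      (∀ v, v ∈ L 1 ↔ ∃ α β : k, v = α • f1 + β • f2) ∧
      (∀ v, v ∈ L 2 ↔ ∃ α β : k, v = α • (e1 + f1) + β • (e2 + f2)) ∧
      (∀ v, v ∈ L 3 ↔ ∃ α β : k, v = α • (e1 + l • f1) + β • (e2 + l • f2)) := by
  have inter : ∀ {i j : Fin 4}, i ≠ j → ∀ v, v ∈ L i → v ∈ L j → v = 0 := fun {i j} hij v hi hj => by
    have := (hskew i j hij).le_bot (Submodule.mem_inf.2 ⟨hi, hj⟩)
    simpa using this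
  have : FiniteDimensional k (L 2) := inferInstance
  let g := Module.finBasisOfFinrankEq k (L 2) (hdim 2)
  have hgind : ∀ α β : k, α • (g 0 : Fin 4 → k) + β • (g 1 : Fin 4 → k) = 0 → α = 0 ∧ β = 0 := by
    intro α β h
    have h1 : α • g 0 + β • g 1 = 0 := by
      apply Subtype.ext
      simpa using h
    have h2 := (LinearIndependent.pair_iff.1 (by
      have := g.linearIndependent
      convert this using 1
      ext i; fin_cases i <;> rfl : LinearIndependent k ![g 0, g 1])) α β h1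
    exact h2
  obtain ⟨e1, he1, f1, hf1, h1⟩ := sup_top hdim hskew (show (0 : Fin 4) ≠ 1 by decide) (g 0)
  obtain ⟨e2, he2, f2, hf2, h2⟩ := sup_top hdim hskew (show (0 : Fin 4) ≠ 1 by decide) (g 1)
  have hg1 : e1 + f1 ∈ L 2 := by rw [h1]; exact (g 0).2
  have hg2 : e2 + f2 ∈ L 2 := by rw [h2]; exact (g 1).2
  rw [← h1, ← h2] at hgind
  -- independence
  have hind : ∀ a1 a2 b1 b2 : k, a1 • e1 + a2 • e2 + b1 • f1 + b2 • f2 = 0 →
      a1 = 0 ∧ a2 = 0 ∧ b1 = 0 ∧ b2 = 0 := by
    intro a1 a2 b1 b2 h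
    have hE : a1 • e1 + a2 • e2 ∈ L 0 :=
      add_mem (Submodule.smul_mem _ _ he1) (Submodule.smul_mem _ _ he2)
    have hF : b1 • f1 + b2 • f2 ∈ L 1 :=
      add_mem (Submodule.smul_mem _ _ hf1) (Submodule.smul_mem _ _ hf2)
    have h0 : a1 • e1 + a2 • e2 = 0 := by
      apply inter (show (0 : Fin 4) ≠ 1 by decide) _ hE
      have : a1 • e1 + a2 • e2 = -(b1 • f1 + b2 • f2) := by
        rw [← add_eq_zero_iff_eq_neg, ← h]; abel
      rw [this]; exact neg_mem hF
    have h0' : b1 • f1 + b2 • f2 = 0 := by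
      rw [h0, zero_add] at h; exact h
    have h3 : a1 • (e1 + f1) + a2 • (e2 + f2) = 0 := by
      apply inter (show (2 : Fin 4) ≠ 1 by decide)
      · exact add_mem (Submodule.smul_mem _ _ hg1) (Submodule.smul_mem _ _ hg2)
      · have : a1 • (e1 + f1) + a2 • (e2 + f2) = a1 • f1 + a2 • f2 := by
          have : a1 • (e1 + f1) + a2 • (e2 + f2) = (a1 • e1 + a2 • e2) + (a1 • f1 + a2 • f2) := by
            simp only [smul_add]; abel
          rw [this, h0, zero_add]
        rw [this]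
        exact add_mem (Submodule.smul_mem _ _ hf1) (Submodule.smul_mem _ _ hf2)
    have h4 : b1 • (e1 + f1) + b2 • (e2 + f2) = 0 := by
      apply inter (show (2 : Fin 4) ≠ 0 by decide)
      · exact add_mem (Submodule.smul_mem _ _ hg1) (Submodule.smul_mem _ _ hg2)
      · have : b1 • (e1 + f1) + b2 • (e2 + f2) = b1 • e1 + b2 • e2 := by
          have : b1 • (e1 + f1) + b2 • (e2 + f2) = (b1 • e1 + b2 • e2) + (b1 • f1 + b2 • f2) := by
            simp only [smul_add]; abel
          rw [this, h0', add_zero]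
        rw [this]
        exact add_mem (Submodule.smul_mem _ _ he1) (Submodule.smul_mem _ _ he2)
    exact ⟨(hgind _ _ h3).1, (hgind _ _ h3).2, (hgind _ _ h4).1, (hgind _ _ h4).2⟩
  have indE : ∀ α β : k, α • e1 + β • e2 = 0 → α = 0 ∧ β = 0 := fun α β h => by
    have := hind α β 0 0 (by simpa using h)
    exact ⟨this.1, this.2.1⟩
  have indF : ∀ α β : k, α • f1 + β • f2 = 0 → α = 0 ∧ β = 0 := fun α β h => by
    have := hind 0 0 α β (by simpa using h)
    exact ⟨this.2.2.1, this.2.2.2⟩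
  have sp0 := span_of_two (L 0) (hdim 0) he1 he2 indE
  have sp1 := span_of_two (L 1) (hdim 1) hf1 hf2 indF
  have sp2 := span_of_two (L 2) (hdim 2) hg1 hg2 hgind
  -- the quadratic form
  obtain ⟨B, hB⟩ := quad_form hq
  have bE1 : B e1 e1 = 0 := by rw [← hB]; exact hLq 0 _ he1
  have bE2 : B e2 e2 = 0 := by rw [← hB]; exact hLq 0 _ he2
  have bF1 : B f1 f1 = 0 := by rw [← hB]; exact hLq 1 _ hf1
  have bF2 : B f2 f2 = 0 := by rw [← hB]; exact hLq 1 _ hf2
  have bE12 : B e1 e2 + B e2 e1 = 0 := by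
    have := hLq 0 _ (add_mem he1 he2)
    rw [hB] at this
    simp only [map_add, LinearMap.add_apply, bE1, bE2] at this
    linear_combination this
  have bF12 : B f1 f2 + B f2 f1 = 0 := by
    have := hLq 1 _ (add_mem hf1 hf2)
    rw [hB] at this
    simp only [map_add, LinearMap.add_apply, bF1, bF2] at this
    linear_combination this
  have b11 : B e1 f1 + B f1 e1 = 0 := by
    have := hLq 2 _ hg1
    rw [hB] at this
    simp only [map_add, LinearMap.add_apply, bE1, bF1] at this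
    linear_combination this
  have b22 : B e2 f2 + B f2 e2 = 0 := by
    have := hLq 2 _ hg2
    rw [hB] at this
    simp only [map_add, LinearMap.add_apply, bE2, bF2] at this
    linear_combination this
  have b12 : (B e1 f2 + B f2 e1) + (B e2 f1 + B f1 e2) = 0 := by
    have := hLq 2 _ (add_mem hg1 hg2)
    rw [hB] at this
    simp only [map_add, LinearMap.add_apply, bE1, bE2, bF1, bF2] at this
    linear_combination this - bE12 - bF12 - b11 - b22
  set c : k := B e1 f2 + B f2 e1 with hc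
  have hqf : ∀ a1 a2 b1 b2 : k, eval (a1 • e1 + a2 • e2 + b1 • f1 + b2 • f2) q =
        c * (a1 * b2 - a2 * b1) := by
    intro a1 a2 b1 b2
    rw [hB]
    simp only [map_add, LinearMap.add_apply, map_smul, LinearMap.smul_apply, smul_eq_mul, bE1, bE2,
      bF1, bF2]
    linear_combination a1 * a2 * bE12 + b1 * b2 * bF12 + a1 * b1 * b11 + a2 * b2 * b22 +
      a2 * b1 * b12
  have hall : ∀ v : Fin 4 → k, ∃ a1 a2 b1 b2 : k, v = a1 • e1 + a2 • e2 + b1 • f1 + b2 • f2 := by
    intro v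
    obtain ⟨a, ha, b, hb, rfl⟩ := sup_top hdim hskew (show (0 : Fin 4) ≠ 1 by decide) v
    obtain ⟨a1, a2, rfl⟩ := sp0 a ha
    obtain ⟨b1, b2, rfl⟩ := sp1 b hb
    exact ⟨a1, a2, b1, b2, by abel⟩
  have hc0 : c ≠ 0 := by
    intro h0
    have hq0 : q = 0 := by
      apply MvPolynomial.funext
      intro v
      obtain ⟨a1, a2, b1, b2, rfl⟩ := hall v
      rw [hqf, h0, zero_mul, map_zero]
    obtain ⟨i, hi⟩ := hns (fun _ => 1) (fun h => one_ne_zero (congrFun h 0)) (by rw [hq0, map_zero])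
    apply hi
    rw [hq0, map_zero, map_zero]
  -- the fourth line
  obtain ⟨u1, hu1, w1, hw1, hu⟩ := sup_top hdim hskew (show (3 : Fin 4) ≠ 1 by decide) e1
  obtain ⟨u2, hu2, w2, hw2, hu'⟩ := sup_top hdim hskew (show (3 : Fin 4) ≠ 1 by decide) e2
  obtain ⟨m11, m21, hm1⟩ := sp1 (-w1) (neg_mem hw1)
  obtain ⟨m12, m22, hm2⟩ := sp1 (-w2) (neg_mem hw2)
  have hu1' : u1 = e1 + (m11 • f1 + m21 • f2) := by rw [← hm1, ← hu]; abel
  have hu2' : u2 = e2 + (m12 • f1 + m22 • f2) := by rw [← hm2, ← hu']; abel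
  have z21 : m21 = 0 := by
    have h3 := hLq 3 _ hu1
    have h4 := hqf 1 0 m11 m21
    have h5 : (1 : k) • e1 + (0 : k) • e2 + m11 • f1 + m21 • f2 = u1 := by
      rw [hu1', one_smul, zero_smul]; abel
    rw [h5, h3] at h4
    have h6 : c * m21 = 0 := by linear_combination -h4
    exact (mul_eq_zero.1 h6).resolve_left hc0
  have z12 : m12 = 0 := by
    have h3 := hLq 3 _ hu2
    have h4 := hqf 0 1 m12 m22
    have h5 : (0 : k) • e1 + (1 : k) • e2 + m12 • f1 + m22 • f2 = u2 := by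
      rw [hu2', one_smul, zero_smul]; abel
    rw [h5, h3] at h4
    have h6 : c * m12 = 0 := by linear_combination h4
    exact (mul_eq_zero.1 h6).resolve_left hc0
  have z22 : m22 = m11 := by
    have h3 := hLq 3 _ (add_mem hu1 hu2)
    have h4 := hqf 1 1 m11 m22
    have h5 : (1 : k) • e1 + (1 : k) • e2 + m11 • f1 + m22 • f2 = u1 + u2 := by
      rw [hu1', hu2', z21, z12, one_smul, one_smul, zero_smul, zero_smul]; abel
    rw [h5, h3] at h4
    have h6 : c * (m22 - m11) = 0 := by linear_combination -h4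
    exact sub_eq_zero.1 ((mul_eq_zero.1 h6).resolve_left hc0)
  subst z21 z12 z22
  have k1 : e1 + m22 • f1 ∈ L 3 := by
    rw [hu1', zero_smul, add_zero] at hu1; exact hu1
  have k2 : e2 + m22 • f2 ∈ L 3 := by
    rw [hu2', zero_smul, zero_add] at hu2; exact hu2
  have hl0 : m22 ≠ 0 := by
    rintro rfl
    rw [zero_smul, add_zero] at k1
    have := inter (show (0 : Fin 4) ≠ 3 by decide) _ he1 k1
    have h7 := indE 1 0 (by rw [this]; simp)
    exact one_ne_zero h7.1
  have hl1 : m22 ≠ 1 := by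
    rintro rfl
    rw [one_smul] at k1
    have := inter (show (2 : Fin 4) ≠ 3 by decide) _ hg1 k1
    have h7 := hgind 1 0 (by rw [this]; simp)
    exact one_ne_zero h7.1
  have indH : ∀ α β : k, α • (e1 + m22 • f1) + β • (e2 + m22 • f2) = 0 → α = 0 ∧ β = 0 := by
    intro α β h
    have := hind α β (α * m22) (β * m22) (by
      rw [← h]; simp only [smul_add, smul_smul]; abel)
    exact ⟨this.1, this.2.1⟩
  have sp3 := span_of_two (L 3) (hdim 3) k1 k2 indH
  refine ⟨e1, e2, f1, f2, m22, c, hl0, hl1, hc0, hind, hqf, fun v => ⟨sp0 v, ?_⟩,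
    fun v => ⟨sp1 v, ?_⟩, fun v => ⟨sp2 v, ?_⟩, fun v => ⟨sp3 v, ?_⟩⟩
  · rintro ⟨α, β, rfl⟩
    exact add_mem (Submodule.smul_mem _ _ he1) (Submodule.smul_mem _ _ he2)
  · rintro ⟨α, β, rfl⟩
    exact add_mem (Submodule.smul_mem _ _ hf1) (Submodule.smul_mem _ _ hf2)
  · rintro ⟨α, β, rfl⟩
    exact add_mem (Submodule.smul_mem _ _ hg1) (Submodule.smul_mem _ _ hg2)
  · rintro ⟨α, β, rfl⟩
    exact add_mem (Submodule.smul_mem _ _ k1) (Submodule.smul_mem _ _ k2)

end Pool.Agent.H67s
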