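import Mathlib
import Pool.Agent.H67s.Coord

/-!
Existence of associated primes of dimension two.
-/

set_option autoImplicit false

open MvPolynomial

namespace Pool.Agent.H67s

variable {k : Type*} [Field k]

/-- There is an associated prime of dimension two. -/
def HasCurve (I : Ideal (MvPolynomial (Fin 4) k)) : Prop :=
  ∃ P ∈ associatedPrimes (MvPolynomial (Fin 4) k) (MvPolynomial (Fin 4) k ⧸ I),
    ringKrullDim (MvPolynomial (Fin 4) k ⧸ P) = 2

lemma hasCurve_zero {t : Fin 4 → k} (ht0 : ∀ i, t i ≠ 0) (ht : Function.Injective t) :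
    HasCurve (fibre 0 (fam t)) := by
  have hker : (RingHom.ker (proj k).toRingHom).IsPrime := RingHom.ker_isPrime _
  refine ⟨RingHom.ker (proj k).toRingHom, ?_, dim_ker _ proj_surj⟩
  rw [mem_ass]
  refine ⟨hker, emb k (ff t) * X 1 ^ 3, fun s => ?_⟩
  have hff := ff_ne ht
  have h1 : ∀ s ∈ Ideal.span {(X 0 : MvPolynomial (Fin 4) k), X 1},
      s * (emb k (ff t) * X 1 ^ 3) ∈ fibre 0 (fam t) := by
    intro s hs
    rw [Ideal.mem_span_pair] at hs
    obtain ⟨a, b, rfl⟩ := hs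
    have : (a * X 0 + b * X 1) * (emb k (ff t) * X 1 ^ 3) =
        (a * X 1 ^ 2) * (emb k (ff t) * (X 0 * X 1)) + (b * emb k (ff t)) * X 1 ^ 4 := by ring
    rw [this]
    exact add_mem (Ideal.mul_mem_left _ _ (ff_xy_mem t)) (Ideal.mul_mem_left _ _ (y4_mem t))
  have h2 : s * (emb k (ff t) * X 1 ^ 3) = (s - emb k (proj k s)) * (emb k (ff t) * X 1 ^ 3) +
      emb k (proj k s) * (emb k (ff t) * X 1 ^ 3) := by ring
  rw [h2, (fibre 0 (fam t)).add_mem_iff_right (h1 _ (sub_proj s))]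
  have h3 : s ∈ RingHom.ker (proj k).toRingHom ↔ proj k s = 0 := Iff.rfl
  rw [h3]
  constructor
  · intro h
    rw [h, map_zero, zero_mul]
    exact zero_mem _
  · intro h
    have h4 := fibre_inJ ht0 ht hff h
    have h5 : emb k (proj k s) * (emb k (ff t) * X 1 ^ 3) =
        emb _ 0 + emb _ 0 * X 1 + emb _ 0 * X 1 ^ 2 + emb _ (proj k s * ff t) * X 1 ^ 3 +
        emb _ 0 * X 0 + X 0 ^ 2 * 0 + X 0 * X 1 * 0 + X 1 ^ 4 * 0 := by
      simp only [map_zero, map_mul]; ring
    rw [h5, inJ_iff hff] at h4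
    have h6 := h4.2.2.2
    rw [zero_mul, add_zero, mul_assoc] at h6
    exact (mul_eq_zero.1 h6).resolve_right (mul_ne_zero hff hff)

lemma hasCurve_ne {t : Fin 4 → k} (ht : Function.Injective t) {a : k} (ha : a ≠ 0) :
    HasCurve (fibre a (fam t)) := by
  have hker : (RingHom.ker (phiA t a 0).toRingHom).IsPrime := RingHom.ker_isPrime _
  refine ⟨RingHom.ker (phiA t a 0).toRingHom, ?_, dim_ker _ (phiA_surj t a 0)⟩
  rw [mem_ass]
  have hx : ∀ i, phiA t a i (X 0) = C (a ^ 3) * xi t i := fun i => by simp [phiA]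
  have he : ∀ i c, phiA t a i (emb k c) = c := by
    intro i c
    have : (phiA t a i).comp (emb k) = AlgHom.id k _ := by
      ext j
      fin_cases j <;> simp [phiA]
    exact congrArg (fun f => f c) this
  have hval : ∀ i j, phiA t a i (X 0 - emb k (C (a ^ 3) * xi t j)) =
      C (a ^ 3 * (t i - t j)) * X 0 := by
    intro i j
    rw [map_sub, hx, he]
    simp only [xi, map_mul, map_sub]
    ring
  have hne : ∀ j, j ≠ 0 → phiA t a 0 (X 0 - emb k (C (a ^ 3) * xi t j)) ≠ 0 := by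
    intro j hj
    rw [hval]
    refine mul_ne_zero ?_ (X_ne_zero 0)
    rw [Ne, C_eq_zero]
    exact mul_ne_zero (pow_ne_zero _ ha) (sub_ne_zero.2 fun h => hj (ht h).symm)
  have hz : ∀ j, phiA t a j (X 0 - emb k (C (a ^ 3) * xi t j)) = 0 := by
    intro j
    rw [hval, sub_self, mul_zero, C_0, zero_mul]
  obtain ⟨G, hG1, hG2⟩ : ∃ G : Fin 4 → MvPolynomial (Fin 4) k,
      (∀ j, phiA t a j (G j) = 0) ∧ ∀ j, j ≠ 0 → phiA t a 0 (G j) ≠ 0 :=
    ⟨fun j => X 0 - emb k (C (a ^ 3) * xi t j), hz, hne⟩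
  refine ⟨hker, G 1 * (G 2 * G 3), fun s => ?_⟩
  rw [mem_fibre_ne t ha]
  have h3 : s ∈ RingHom.ker (phiA t a 0).toRingHom ↔ phiA t a 0 s = 0 := Iff.rfl
  rw [h3]
  constructor
  · intro h i
    rw [map_mul, map_mul, map_mul]
    fin_cases i
    · simp only [Fin.zero_eta, Fin.isValue, h, zero_mul]
    · simp only [Fin.mk_one, Fin.isValue, hG1, zero_mul, mul_zero]
    · simp only [Fin.reduceFinMk, Fin.isValue, hG1, zero_mul, mul_zero]
    · simp only [Fin.reduceFinMk, Fin.isValue, hG1, mul_zero]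
  · intro h
    have h4 := h 0
    rw [map_mul, map_mul, map_mul] at h4
    exact (mul_eq_zero.1 h4).resolve_right (mul_ne_zero (hG2 1 (by decide))
      (mul_ne_zero (hG2 2 (by decide)) (hG2 3 (by decide))))

lemma hasCurve_famN {N M : Matrix (Fin 4) (Fin 4) k} (hNM : N * M = 1) {t : Fin 4 → k} {a : k}
    (h : HasCurve (fibre a (fam t))) : HasCurve (fibre a (famN N t)) := by
  have hMN : M * N = 1 := mul_eq_one_comm.1 hNM
  obtain ⟨P, hP, hdim⟩ := h
  rw [mem_ass] at hP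
  obtain ⟨hPp, F, hF⟩ := hP
  set P' : Ideal (MvPolynomial (Fin 4) k) := P.comap (sub N).toRingHom with hP'
  have hP'' : ∀ s, s ∈ P' ↔ sub N s ∈ P := by
    intro s
    rw [hP', Ideal.mem_comap, AlgHom.toRingHom_eq_coe, RingHom.coe_coe]
  refine ⟨P', ?_, ?_⟩
  · rw [mem_ass]
    refine ⟨hPp.comap _, sub M F, fun s => ?_⟩
    rw [hP'', hF, mem_fibre_famN hNM, map_mul, sub_sub, hMN, sub_one]
  · have hsurj : Function.Surjective (sub N : MvPolynomial (Fin 4) k → MvPolynomial (Fin 4) k) :=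
      fun s => ⟨sub M s, by rw [sub_sub, hMN, sub_one]⟩
    have e : MvPolynomial (Fin 4) k ⧸ P' ≃+* MvPolynomial (Fin 4) k ⧸ P := by
      have hbij : Function.Bijective
          (Ideal.quotientMap P (sub N).toRingHom (le_refl P') :
            MvPolynomial (Fin 4) k ⧸ P' →+* MvPolynomial (Fin 4) k ⧸ P) :=
        ⟨Ideal.quotientMap_injective, Ideal.quotientMap_surjective hsurj⟩
      exact RingEquiv.ofBijective _ hbij
    rw [ringKrullDim_eq_of_ringEquiv e, hdim]

end Pool.Agent.H67s
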