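import Mathlib
import Pool.Agent.H67s.Lin
import Pool.Agent.H67s.Coord

/-!
Normal form of four pairwise skew lines on a nonsingular quadric surface.
-/

set_option autoImplicit false

open MvPolynomial

namespace Pool.Agent.H67s

variable {k : Type*} [Field k]

lemma normal_form [Infinite k] {q : MvPolynomial (Fin 4) k} (hq : q.IsHomogeneous 2)
    (hns : Nonsingular q)
    {L : Fin 4 → Submodule k (Fin 4 → k)} (hdim : ∀ i, Module.finrank k (L i) = 2)
    (hskew : ∀ i j, i ≠ j → Disjoint (L i) (L j))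
    (hLq : ∀ i, ∀ v ∈ L i, eval v q = 0) :
    ∃ (N M : Matrix (Fin 4) (Fin 4) k) (t : Fin 4 → k) (c : k), N * M = 1 ∧ c ≠ 0 ∧
      (∀ i, t i ≠ 0) ∧ Function.Injective t ∧
      (∀ i j, i ≠ j → (t i * t j) ^ 2 ≠ t 0 * t 1 * t 2 * t 3) ∧
      (∀ i v, v ∈ L i ↔ ∃ z w, v = N.mulVec ![t i * z, t i * z - (t i)⁻¹ * w, z, w]) ∧
      (∀ x, eval (N.mulVec x) q = c * (x 0 ^ 2 - x 0 * x 1 - x 2 * x 3)) := by
  obtain ⟨e1, e2, f1, f2, l, c, hl0, hl1, hc, hind, hqf, h0, h1, h2, h3⟩ :=
    adapted hq hns hdim hskew hLq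
  obtain ⟨g, d, hg0, hg1, hgl, hd0, hd1, hdl, hdg, hA, hB, hC⟩ := exists_param hl0 hl1
  let N : Matrix (Fin 4) (Fin 4) k := Matrix.of fun i j =>
    ![e1 i + g * f1 i + (-e2 i + d * f2 i), -(-e2 i + d * f2 i), -e1 i + d * f1 i,
      e2 i + g * f2 i] j
  have hN : ∀ x, N.mulVec x = (x 0 - x 2) • e1 + (x 1 - x 0 + x 3) • e2 +
      (g * x 0 + d * x 2) • f1 + (d * (x 0 - x 1) + g * x 3) • f2 := by
    intro x
    ext i
    simp [N, Matrix.mulVec, dotProduct, Fin.sum_univ_four]
    ring
  have hNinj : Function.Injective N.mulVec := by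
    have : Function.Injective N.mulVecLin := by
      rw [injective_iff_map_eq_zero]
      intro x hx
      rw [Matrix.mulVecLin_apply, hN] at hx
      obtain ⟨y0, y1, y2, y3⟩ := hind _ _ _ _ hx
      have x02 : x 0 = x 2 := sub_eq_zero.1 y0
      have x0 : x 0 = 0 := by
        have : (d + g) * x 0 = 0 := by rw [← x02] at y2; linear_combination y2
        exact (mul_eq_zero.1 this).resolve_left hdg
      have x3 : x 3 = - x 1 := by rw [x0] at y1; linear_combination y1
      have x1 : x 1 = 0 := by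
        have : (d + g) * x 1 = 0 := by rw [x0, x3] at y3; linear_combination -y3
        exact (mul_eq_zero.1 this).resolve_left hdg
      ext i
      fin_cases i
      · exact x0
      · exact x1
      · change x 2 = 0; rw [← x02, x0]
      · change x 3 = 0; rw [x3, x1, neg_zero]
    exact this
  have hunit : IsUnit N := Matrix.mulVec_injective_iff_isUnit.1 hNinj
  obtain ⟨M, hM⟩ := hunit.exists_right_inv
  have hline : ∀ t z w : k, t ≠ 0 → N.mulVec ![t * z, t * z - t⁻¹ * w, z, w] =
      (t - 1) • (z • e1 + (t⁻¹ * w) • e2) + (g * t + d) • (z • f1 + (t⁻¹ * w) • f2) := by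
    intro t z w ht
    rw [hN]
    ext i
    simp
    field_simp
    ring
  have hlg : l - g ≠ 0 := hgl
  have key : ∀ s x : k, s ≠ 0 → s * (x / s) = x := fun s x hs => by field_simp
  refine ⟨N, M, ![-d / g, 1, (d + 1) / (1 - g), (d + l) / (l - g)], c * (d + g), hM,
    mul_ne_zero hc hdg, ?_, ?_, ?_, ?_, ?_⟩
  · intro i
    fin_cases i
    · exact div_ne_zero (neg_ne_zero.2 hd0) hg0
    · exact one_ne_zero
    · exact div_ne_zero hd1 hg1
    · exact div_ne_zero hdl hlg
  · have n01 : -d / g ≠ 1 := by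
      rw [Ne, div_eq_iff hg0]
      intro h; apply hdg; linear_combination -h
    have n02 : -d / g ≠ (d + 1) / (1 - g) := by
      rw [Ne, div_eq_div_iff hg0 hg1]
      intro h; apply hdg; linear_combination -h
    have n03 : -d / g ≠ (d + l) / (l - g) := by
      rw [Ne, div_eq_div_iff hg0 hlg]
      intro h
      have : l * (d + g) = 0 := by linear_combination -h
      exact hdg ((mul_eq_zero.1 this).resolve_left hl0)
    have n12 : (1 : k) ≠ (d + 1) / (1 - g) := by
      rw [Ne, eq_div_iff hg1]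
      intro h; apply hdg; linear_combination -h
    have n13 : (1 : k) ≠ (d + l) / (l - g) := by
      rw [Ne, eq_div_iff hlg]
      intro h; apply hdg; linear_combination -h
    have n23 : (d + 1) / (1 - g) ≠ (d + l) / (l - g) := by
      rw [Ne, div_eq_div_iff hg1 hlg]
      intro h
      have : (l - 1) * (d + g) = 0 := by linear_combination h
      exact hdg ((mul_eq_zero.1 this).resolve_left (sub_ne_zero.2 hl1))
    intro i j hij
    fin_cases i <;> fin_cases j <;> first
      | rfl
      | exact absurd hij n01 | exact absurd hij n02 | exact absurd hij n03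
      | exact absurd hij n12 | exact absurd hij n13 | exact absurd hij n23
      | exact absurd hij.symm n01 | exact absurd hij.symm n02 | exact absurd hij.symm n03
      | exact absurd hij.symm n12 | exact absurd hij.symm n13 | exact absurd hij.symm n23
  · set t0 := -d / g with ht0
    set t2 := (d + 1) / (1 - g) with ht2
    set t3 := (d + l) / (l - g) with ht3
    have n0 : t0 ≠ 0 := div_ne_zero (neg_ne_zero.2 hd0) hg0
    have n2 : t2 ≠ 0 := div_ne_zero hd1 hg1
    have n3 : t3 ≠ 0 := div_ne_zero hdl hlg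
    have A : t0 * 1 ≠ t2 * t3 := by
      rw [ht0, ht2, ht3, mul_one, div_mul_div_comm, Ne, div_eq_div_iff hg0 (mul_ne_zero hg1 hlg)]
      intro h; apply hA; linear_combination h
    have B : t0 * t2 ≠ 1 * t3 := by
      rw [ht0, ht2, ht3, one_mul, div_mul_div_comm, Ne, div_eq_div_iff (mul_ne_zero hg0 hg1) hlg]
      intro h; apply hB; linear_combination h
    have C' : t0 * t3 ≠ 1 * t2 := by
      rw [ht0, ht2, ht3, one_mul, div_mul_div_comm, Ne, div_eq_div_iff (mul_ne_zero hg0 hlg) hg1]
      intro h; apply hC; linear_combination h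
    have gen : ∀ a b p : k, a ≠ 0 → a ≠ b → p = a * b → a ^ 2 ≠ p := by
      intro a b p ha hab hp h
      apply hab
      rw [hp, sq] at h
      exact mul_left_cancel₀ ha h
    intro i j hij
    fin_cases i <;> fin_cases j
    · exact absurd rfl hij
    · exact gen (t0 * 1) (t2 * t3) _ (mul_ne_zero n0 one_ne_zero) A (by change t0 * 1 * t2 * t3 = _; ring)
    · exact gen (t0 * t2) (1 * t3) _ (mul_ne_zero n0 n2) B (by change t0 * 1 * t2 * t3 = _; ring)
    · exact gen (t0 * t3) (1 * t2) _ (mul_ne_zero n0 n3) C' (by change t0 * 1 * t2 * t3 = _; ring)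
    · exact gen (1 * t0) (t2 * t3) _ (mul_ne_zero one_ne_zero n0) (by rw [mul_comm]; exact A)
        (by change t0 * 1 * t2 * t3 = _; ring)
    · exact absurd rfl hij
    · exact gen (1 * t2) (t0 * t3) _ (mul_ne_zero one_ne_zero n2) C'.symm (by change t0 * 1 * t2 * t3 = _; ring)
    · exact gen (1 * t3) (t0 * t2) _ (mul_ne_zero one_ne_zero n3) B.symm (by change t0 * 1 * t2 * t3 = _; ring)
    · exact gen (t2 * t0) (1 * t3) _ (mul_ne_zero n2 n0) (by rw [mul_comm]; exact B)
        (by change t0 * 1 * t2 * t3 = _; ring)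
    · exact gen (t2 * 1) (t0 * t3) _ (mul_ne_zero n2 one_ne_zero)
        (by rw [mul_comm]; exact C'.symm) (by change t0 * 1 * t2 * t3 = _; ring)
    · exact absurd rfl hij
    · exact gen (t2 * t3) (t0 * 1) _ (mul_ne_zero n2 n3) A.symm (by change t0 * 1 * t2 * t3 = _; ring)
    · exact gen (t3 * t0) (1 * t2) _ (mul_ne_zero n3 n0) (by rw [mul_comm]; exact C')
        (by change t0 * 1 * t2 * t3 = _; ring)
    · exact gen (t3 * 1) (t0 * t2) _ (mul_ne_zero n3 one_ne_zero)
        (by rw [mul_comm]; exact B.symm) (by change t0 * 1 * t2 * t3 = _; ring)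
    · exact gen (t3 * t2) (t0 * 1) _ (mul_ne_zero n3 n2) (by rw [mul_comm]; exact A.symm)
        (by change t0 * 1 * t2 * t3 = _; ring)
    · exact absurd rfl hij
  · intro i v
    fin_cases i
    · have ht : (-d / g : k) ≠ 0 := div_ne_zero (neg_ne_zero.2 hd0) hg0
      have hr : g * (-d / g) + d = 0 := by field_simp; ring
      have hs : -d / g - 1 ≠ 0 := by
        intro h; apply hdg; field_simp at h; linear_combination -h
      change v ∈ L 0 ↔ ∃ z w, v = N.mulVec ![(-d / g) * z, (-d / g) * z - (-d / g)⁻¹ * w, z, w]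
      simp only [hline _ _ _ ht, hr, zero_smul, add_zero, h0]
      constructor
      · rintro ⟨α, β, rfl⟩
        refine ⟨α / (-d / g - 1), (-d / g) * (β / (-d / g - 1)), ?_⟩
        rw [smul_add, smul_smul, smul_smul]
        congr 2
        · exact (key _ _ hs).symm
        · rw [inv_mul_cancel_left₀ ht]; exact (key _ _ hs).symm
      · rintro ⟨z, w, rfl⟩
        exact ⟨(-d / g - 1) * z, (-d / g - 1) * ((-d / g)⁻¹ * w), by
          rw [smul_add, smul_smul, smul_smul]⟩
    · have hr : g * 1 + d ≠ 0 := by rw [mul_one, add_comm]; exact hdg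
      change v ∈ L 1 ↔ ∃ z w, v = N.mulVec ![1 * z, 1 * z - 1⁻¹ * w, z, w]
      have hv : ∀ z w : k, N.mulVec ![1 * z, 1 * z - 1⁻¹ * w, z, w] =
          (g * 1 + d) • (z • f1 + w • f2) := by
        intro z w
        rw [hline 1 z w one_ne_zero, sub_self, zero_smul, zero_add, inv_one, one_mul]
      simp only [hv, h1]
      constructor
      · rintro ⟨α, β, rfl⟩
        refine ⟨α / (g * 1 + d), β / (g * 1 + d), ?_⟩
        rw [smul_add, smul_smul, smul_smul]
        rw [key _ _ hr, key _ _ hr]
      · rintro ⟨z, w, rfl⟩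
        exact ⟨(g * 1 + d) * z, (g * 1 + d) * w, by rw [smul_add, smul_smul, smul_smul]⟩
    · have ht : ((d + 1) / (1 - g) : k) ≠ 0 := div_ne_zero hd1 hg1
      have hr : g * ((d + 1) / (1 - g)) + d = (d + 1) / (1 - g) - 1 := by field_simp; ring
      have hs : (d + 1) / (1 - g) - 1 ≠ 0 := by
        intro h; apply hdg; field_simp at h; linear_combination h
      change v ∈ L 2 ↔ ∃ z w, v = N.mulVec ![((d + 1) / (1 - g)) * z,
        ((d + 1) / (1 - g)) * z - ((d + 1) / (1 - g))⁻¹ * w, z, w]
      simp only [hline _ _ _ ht, hr, h2]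
      constructor
      · rintro ⟨α, β, rfl⟩
        refine ⟨α / ((d + 1) / (1 - g) - 1),
          ((d + 1) / (1 - g)) * (β / ((d + 1) / (1 - g) - 1)), ?_⟩
        rw [inv_mul_cancel_left₀ ht]
        have a1 : α = ((d + 1) / (1 - g) - 1) * (α / ((d + 1) / (1 - g) - 1)) :=
          (key _ _ hs).symm
        have a2 : β = ((d + 1) / (1 - g) - 1) * (β / ((d + 1) / (1 - g) - 1)) :=
          (key _ _ hs).symm
        nth_rewrite 1 [a1]
        nth_rewrite 1 [a2]
        simp only [smul_add, mul_smul]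
        abel
      · rintro ⟨z, w, rfl⟩
        refine ⟨((d + 1) / (1 - g) - 1) * z, ((d + 1) / (1 - g) - 1) *
          (((d + 1) / (1 - g))⁻¹ * w), ?_⟩
        simp only [smul_add, mul_smul]
        abel
    · have ht : ((d + l) / (l - g) : k) ≠ 0 := div_ne_zero hdl hlg
      have hr : g * ((d + l) / (l - g)) + d = ((d + l) / (l - g) - 1) * l := by field_simp; ring
      have hs : (d + l) / (l - g) - 1 ≠ 0 := by
        intro h; apply hdg; field_simp at h; linear_combination h
      change v ∈ L 3 ↔ ∃ z w, v = N.mulVec ![((d + l) / (l - g)) * z,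
        ((d + l) / (l - g)) * z - ((d + l) / (l - g))⁻¹ * w, z, w]
      simp only [hline _ _ _ ht, hr, h3]
      constructor
      · rintro ⟨α, β, rfl⟩
        refine ⟨α / ((d + l) / (l - g) - 1),
          ((d + l) / (l - g)) * (β / ((d + l) / (l - g) - 1)), ?_⟩
        rw [inv_mul_cancel_left₀ ht]
        have a1 : α = ((d + l) / (l - g) - 1) * (α / ((d + l) / (l - g) - 1)) :=
          (key _ _ hs).symm
        have a2 : β = ((d + l) / (l - g) - 1) * (β / ((d + l) / (l - g) - 1)) :=
          (key _ _ hs).symm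
        nth_rewrite 1 [a1]
        nth_rewrite 1 [a2]
        simp only [smul_add, mul_smul, smul_comm l]
        abel
      · rintro ⟨z, w, rfl⟩
        refine ⟨((d + l) / (l - g) - 1) * z, ((d + l) / (l - g) - 1) *
          (((d + l) / (l - g))⁻¹ * w), ?_⟩
        simp only [smul_add, mul_smul, smul_comm l]
        abel
  · intro x
    rw [hN, hqf]
    ring

end Pool.Agent.H67s
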